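import Pool.Agent.WFS.K.Tau

/-! # Finite matrices in the stable group (helper73, WFS, module K) -/

set_option autoImplicit false
set_option linter.all false
set_option maxHeartbeats 400000

noncomputable section

namespace Pool.WFS.K

open Polynomial
open scoped Classical

variable {ι : Type}

section em
variable {S T U W : Type} [Fintype S] [Fintype T] [Fintype U] [Fintype W]

/-- the endomorphism with block `A` (rows at `e`, columns at `f`) -/
def em (e : S → ι) (f : T → ι) (A : Matrix S T R) : V ι →ₗ[R] V ι :=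
  ∑ s, ∑ t, A s t • (co (f t)).smulRight (Finsupp.single (e s) (1 : R))

theorem em_apply (e : S → ι) (f : T → ι) (A : Matrix S T R) (v : V ι) :
    em e f A v = ∑ s, Finsupp.single (e s) (∑ t, A s t * v (f t)) := by
  unfold em
  simp only [LinearMap.sum_apply, LinearMap.smul_apply, LinearMap.smulRight_apply, co_apply]
  refine Finset.sum_congr rfl fun s _ => ?_
  rw [Finsupp.single_finsetSum]
  refine Finset.sum_congr rfl fun t _ => ?_
  rw [Finsupp.smul_single, Finsupp.smul_single, smul_eq_mul, smul_eq_mul, mul_one]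

theorem em_apply_self {e : S → ι} (he : Function.Injective e) (f : T → ι) (A : Matrix S T R)
    (v : V ι) (s : S) : (em e f A v) (e s) = ∑ t, A s t * v (f t) := by
  rw [em_apply, Finsupp.finsetSum_apply, Finset.sum_eq_single s]
  · rw [Finsupp.single_eq_same]
  · intro s' _ hs
    rw [Finsupp.single_apply, if_neg (fun h => hs (he h))]
  · intro h; exact absurd (Finset.mem_univ _) h

theorem em_apply_ne {e : S → ι} (f : T → ι) (A : Matrix S T R)
    (v : V ι) (i : ι) (hi : ∀ s, e s ≠ i) : (em e f A v) i = 0 := by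
  rw [em_apply, Finsupp.finsetSum_apply]
  refine Finset.sum_eq_zero fun s _ => ?_
  rw [Finsupp.single_apply, if_neg (hi s)]

theorem em_mul (e : S → ι) {f : T → ι} (hf : Function.Injective f) (g : U → ι)
    (A : Matrix S T R) (B : Matrix T U R) (v : V ι) :
    em e f A (em f g B v) = em e g (A * B) v := by
  rw [em_apply, em_apply e g]
  refine Finset.sum_congr rfl fun s _ => ?_
  congr 1
  simp only [em_apply_self hf, Matrix.mul_apply, Finset.mul_sum, Finset.sum_mul]
  rw [Finset.sum_comm]
  refine Finset.sum_congr rfl fun u _ => Finset.sum_congr rfl fun t _ => ?_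
  ring

theorem em_mul_zero (e : S → ι) (f : T → ι) (f' : W → ι) (h : ∀ t w, f t ≠ f' w) (g : U → ι)
    (A : Matrix S T R) (B : Matrix W U R) (v : V ι) :
    em e f A (em f' g B v) = 0 := by
  rw [em_apply]
  refine Finset.sum_eq_zero fun s _ => ?_
  rw [Finset.sum_eq_zero, Finsupp.single_zero]
  intro t _
  rw [em_apply_ne g B v _ (fun w hw => h t w hw.symm), mul_zero]

theorem em_add (e : S → ι) (f : T → ι) (A B : Matrix S T R) (v : V ι) :
    em e f (A + B) v = em e f A v + em e f B v := by
  simp only [em_apply]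
  rw [← Finset.sum_add_distrib]
  refine Finset.sum_congr rfl fun s _ => ?_
  rw [← Finsupp.single_add, ← Finset.sum_add_distrib]
  congr 1
  refine Finset.sum_congr rfl fun t _ => ?_
  rw [Matrix.add_apply, add_mul]

theorem em_zero (e : S → ι) (f : T → ι) (v : V ι) : em e f (0 : Matrix S T R) v = 0 := by
  rw [em_apply]
  refine Finset.sum_eq_zero fun s _ => ?_
  simp

theorem em_neg (e : S → ι) (f : T → ι) (A : Matrix S T R) (v : V ι) :
    em e f (-A) v = -em e f A v := by
  rw [eq_neg_iff_add_eq_zero, ← em_add, neg_add_cancel, em_zero]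

theorem em_sub (e : S → ι) (f : T → ι) (A B : Matrix S T R) (v : V ι) :
    em e f (A - B) v = em e f A v - em e f B v := by
  rw [sub_eq_add_neg, em_add, em_neg, sub_eq_add_neg]

end em

section emb
variable {S T : Type} [Fintype S] [DecidableEq S] [Fintype T] [DecidableEq T]

theorem em_pair (e : S ↪ ι) {A B : Matrix S S R} (h : A * B = 1) (v : V ι) :
    (v + em e e (B - 1) v) + em e e (A - 1) (v + em e e (B - 1) v) = v := by
  have h2 : (A - 1) * (B - 1) + (A - 1) + (B - 1) = 0 := by
    rw [sub_mul, mul_sub, h, mul_one, one_mul]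
    abel
  have h3 : em e e ((A - 1) * (B - 1) + (A - 1) + (B - 1)) v = 0 := by
    rw [h2, em_zero]
  rw [em_add, em_add] at h3
  rw [map_add, em_mul _ e.injective, add_assoc, add_eq_left]
  rw [← h3]
  abel

theorem em_pair' (e : S ↪ ι) {A B : Matrix S S R} (h : A * B = 1) :
    (LinearMap.id + em e e (A - 1)) ∘ₗ (LinearMap.id + em e e (B - 1)) = LinearMap.id := by
  refine LinearMap.ext fun v => ?_
  rw [LinearMap.comp_apply, LinearMap.add_apply, LinearMap.add_apply, LinearMap.id_apply,
    LinearMap.id_apply]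
  exact em_pair e h v

/-- an invertible finite matrix as an element of `G ι` -/
def embU (e : S ↪ ι) (A B : Matrix S S R) (h : A * B = 1) (h' : B * A = 1) : G ι :=
  LinearEquiv.ofLinear (LinearMap.id + em e e (A - 1)) (LinearMap.id + em e e (B - 1))
    (em_pair' e h) (em_pair' e h')

theorem embU_apply (e : S ↪ ι) (A B : Matrix S S R) (h : A * B = 1) (h' : B * A = 1) (v : V ι) :
    embU e A B h h' v = v + em e e (A - 1) v := rfl

theorem SL_mul_inv (M : Matrix.SpecialLinearGroup S R) :
    (M : Matrix S S R) * ((M⁻¹ : Matrix.SpecialLinearGroup S R) : Matrix S S R) = 1 := by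
  rw [← Matrix.SpecialLinearGroup.coe_mul, mul_inv_cancel, Matrix.SpecialLinearGroup.coe_one]

theorem SL_inv_mul (M : Matrix.SpecialLinearGroup S R) :
    ((M⁻¹ : Matrix.SpecialLinearGroup S R) : Matrix S S R) * (M : Matrix S S R) = 1 := by
  rw [← Matrix.SpecialLinearGroup.coe_mul, inv_mul_cancel, Matrix.SpecialLinearGroup.coe_one]

/-- a finite matrix of determinant one as an element of `G ι` -/
def emb (e : S ↪ ι) (M : Matrix.SpecialLinearGroup S R) : G ι :=
  embU e (M : Matrix S S R) ((M⁻¹ : Matrix.SpecialLinearGroup S R) : Matrix S S R)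
    (SL_mul_inv M) (SL_inv_mul M)

theorem emb_apply (e : S ↪ ι) (M : Matrix.SpecialLinearGroup S R) (v : V ι) :
    emb e M v = v + em e e ((M : Matrix S S R) - 1) v := rfl

theorem emb_mul (e : S ↪ ι) (M N : Matrix.SpecialLinearGroup S R) :
    emb e (M * N) = emb e M * emb e N := by
  refine LinearEquiv.ext fun v => ?_
  rw [LinearEquiv.mul_apply, emb_apply, emb_apply, emb_apply, map_add, em_mul _ e.injective]
  have : ((M * N : Matrix.SpecialLinearGroup S R) : Matrix S S R) - 1 =
      ((M : Matrix S S R) - 1) + ((N : Matrix S S R) - 1) +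
        ((M : Matrix S S R) - 1) * ((N : Matrix S S R) - 1) := by
    rw [Matrix.SpecialLinearGroup.coe_mul, sub_mul, mul_sub]
    simp
  rw [this, em_add, em_add]
  abel

theorem emb_one (e : S ↪ ι) : emb e (1 : Matrix.SpecialLinearGroup S R) = 1 := by
  refine LinearEquiv.ext fun v => ?_
  rw [emb_apply, Matrix.SpecialLinearGroup.coe_one, sub_self, em_zero, add_zero]; rfl

theorem emb_inv (e : S ↪ ι) (M : Matrix.SpecialLinearGroup S R) :
    emb e M⁻¹ = (emb e M)⁻¹ := by
  rw [eq_inv_iff_mul_eq_one, ← emb_mul, inv_mul_cancel, emb_one]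

/-- `emb` as a homomorphism -/
def embH (e : S ↪ ι) : Matrix.SpecialLinearGroup S R →* G ι where
  toFun := emb e
  map_one' := emb_one e
  map_mul' := emb_mul e

theorem embH_apply (e : S ↪ ι) (M : Matrix.SpecialLinearGroup S R) : embH e M = emb e M := rfl

theorem emb_single (e : S ↪ ι) (M : Matrix.SpecialLinearGroup S R) (s t : S) :
    (emb e M (Finsupp.single (e t) 1)) (e s) = (M : Matrix S S R) s t := by
  rw [emb_apply, Finsupp.add_apply, em_apply_self e.injective, Finset.sum_eq_single t]
  · rw [Finsupp.single_eq_same, mul_one, Matrix.sub_apply, Matrix.one_apply, Finsupp.single_apply]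
    by_cases h : s = t
    · subst h; simp
    · rw [if_neg h, if_neg (fun h' => h (e.injective h').symm)]; ring
  · intro u _ hu
    rw [Finsupp.single_apply, if_neg (fun h => hu (e.injective h).symm), mul_zero]
  · intro h; exact absurd (Finset.mem_univ _) h

theorem emb_injective (e : S ↪ ι) : Function.Injective (emb e) := by
  intro M N h
  apply Matrix.SpecialLinearGroup.ext
  intro s t
  rw [← emb_single e M, h, emb_single]

/-- `emb e M ∈ Gam a` iff `M = 1 mod X^a` -/
theorem emb_mem_Gam {e : S ↪ ι} {M : Matrix.SpecialLinearGroup S R} {a : ℕ}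
    (h : ∀ s t, X ^ a ∣ ((M : Matrix S S R) - 1) s t) : emb e M ∈ Gam ι a := by
  intro v i
  rw [emb_apply, add_sub_cancel_left]
  by_cases hi : ∃ s, e s = i
  · obtain ⟨s, rfl⟩ := hi
    rw [em_apply_self e.injective]
    exact Finset.dvd_sum fun t _ => (h s t).mul_right _
  · push Not at hi
    rw [em_apply_ne _ _ _ _ hi]
    exact dvd_zero _

end emb

end Pool.WFS.K
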