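import Pool.Agent.WFS.Emb
import Pool.Agent.WFS.NilE

/-! # Statement of the output of module K (helper73) -/

set_option autoImplicit false
set_option linter.all false

namespace Pool.Agent.WFS

open Matrix Pool.WFS.Lad Polynomial

/-- the number of spare indices -/
def cK (N : ℕ) : ℕ := 20 * N + 40

/-- two of the spare indices -/
def prK (S : Type) (N : ℕ) : Fin 2 ↪ S ⊕ Fin (cK N) where
  toFun k := Sum.inr ⟨k.val, by have := k.isLt; unfold cK; omega⟩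
  inj' := by
    intro a b h
    simp only [Sum.inr.injEq, Fin.mk.injEq] at h
    exact Fin.ext h

/-- the commutator `[1 + s X E_01, 1 + s' X^a E_10]` -/
noncomputable def Cc2 (s s' : ℤ) (a : ℕ) : SL (Fin 2) ℤ[X] :=
  Pool.WFS.Nil.xs 0 1 (by decide) (C s * X) * Pool.WFS.Nil.xs 1 0 (by decide) (C s' * X ^ a) *
    (Pool.WFS.Nil.xs 0 1 (by decide) (C s * X))⁻¹ *
    (Pool.WFS.Nil.xs 1 0 (by decide) (C s' * X ^ a))⁻¹

/-- `Y` is a conjugate (by an elementary matrix) of `[1 ± X E_01, 1 ± X^(m-1) E_10]` (any signs)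
up to an element of the relative elementary group of `X^m` -/
def ClsK (m : ℕ) (Y : SL (Fin 2) ℤ[X]) : Prop :=
  ∃ s s' : ℤ, (s = 1 ∨ s = -1) ∧ (s' = 1 ∨ s' = -1) ∧ ∃ p ∈ Pool.WFS.Nil.Ez (Fin 2) ℤ[X],
    (p * Cc2 s s' (m - 1) * p⁻¹)⁻¹ * Y ∈ Pool.WFS.Nil.E1 (Fin 2) m

end Pool.Agent.WFS
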