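import Pool.Agent.WFK.SDefs
import Pool.Agent.WFK.Emb
import Pool.Agent.WFK.KoutDef

/-! # Dictionary between `SL S ℤ[X]` and `G ι` (helper73, WFS, module K) -/

set_option autoImplicit false
set_option linter.all false
set_option maxHeartbeats 400000

noncomputable section

namespace Pool.WFS.K

open Polynomial
open scoped Classical

variable {ι : Type}

section
variable {S T : Type} [Fintype S] [DecidableEq S] [Fintype T] [DecidableEq T]

theorem emb_xs (e : S ↪ ι) (i j : S) (h : i ≠ j) (f : R) :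
    emb e (Pool.WFS.Nil.xs i j h f) = xe (e i) (e j) f := by
  refine LinearEquiv.ext fun v => ?_
  have hne : e i ≠ e j := fun h' => h (e.injective h')
  rw [emb_apply, xe_apply hne, Pool.WFS.Nil.coe_xs, add_sub_cancel_left, em_apply]
  congr 1
  rw [Finset.sum_eq_single i]
  · congr 1
    rw [Finset.sum_eq_single j]
    · rw [Matrix.single_apply, if_pos ⟨rfl, rfl⟩, mul_comm]
    · intro b _ hb
      rw [Matrix.single_apply, if_neg (fun h => hb h.2.symm), zero_mul]
    · intro h'; exact absurd (Finset.mem_univ _) h'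
  · intro b _ hb
    rw [Finset.sum_eq_zero, Finsupp.single_zero]
    intro t _
    rw [Matrix.single_apply, if_neg (fun h => hb h.1.symm), zero_mul]
  · intro h'; exact absurd (Finset.mem_univ _) h'

theorem emb_mem_PPs (e : S ↪ ι) {M : Matrix.SpecialLinearGroup S R}
    (hM : M ∈ Pool.WFS.Nil.Ez S R) {J : Set ι} (hJ : ∀ s, e s ∈ J) : emb e M ∈ PPs J := by
  unfold Pool.WFS.Nil.Ez at hM
  induction hM using Subgroup.closure_induction with
  | mem x hx =>
    obtain ⟨i, j, h, f, rfl⟩ := hx
    rw [emb_xs]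
    exact xe_mem_PPs (fun h' => h (e.injective h')) (hJ i) (hJ j) f
  | one => rw [emb_one]; exact (PPs J).one_mem
  | mul x y _ _ hx hy => rw [emb_mul]; exact (PPs J).mul_mem hx hy
  | inv x _ hx => rw [emb_inv]; exact (PPs J).inv_mem hx

theorem emb_mem_Es (e : S ↪ ι) {a : ℕ} {M : Matrix.SpecialLinearGroup S R}
    (hM : M ∈ Pool.WFS.Nil.E1 S a) {J : Set ι} (hJ : ∀ s, e s ∈ J) : emb e M ∈ Es J a := by
  unfold Pool.WFS.Nil.E1 at hM
  induction hM using Subgroup.closure_induction with
  | mem x hx =>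
    obtain ⟨p, hp, i, j, h, f, rfl⟩ := hx
    rw [emb_mul, emb_mul, emb_inv, emb_xs]
    exact conj_mem_Es (emb_mem_PPs e hp hJ)
      (xe_mem_Es (fun h' => h (e.injective h')) (hJ i) (hJ j) (dvd_mul_right _ _))
  | one => rw [emb_one]; exact (Es J a).one_mem
  | mul x y _ _ hx hy => rw [emb_mul]; exact (Es J a).mul_mem hx hy
  | inv x _ hx => rw [emb_inv]; exact (Es J a).inv_mem hx

/-- the two embeddings are compatible -/
theorem emb_emb (f : S ↪ T) (e : T ↪ ι) (M : Matrix.SpecialLinearGroup S R) :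
    emb e (Pool.Agent.WFS.emb f M) = emb (f.trans e) M := by
  refine LinearEquiv.ext fun v => ?_
  rw [emb_apply, emb_apply]
  congr 1
  ext1 i
  by_cases hi : ∃ t, e t = i
  · obtain ⟨t, rfl⟩ := hi
    rw [em_apply_self e.injective]
    by_cases ht : ∃ s, f s = t
    · obtain ⟨s, rfl⟩ := ht
      rw [show e (f s) = (f.trans e) s from rfl, em_apply_self (f.trans e).injective]
      have hs : ∀ b, b ∉ Finset.univ.map f → (((Pool.Agent.WFS.emb f M :
          Matrix.SpecialLinearGroup T R) : Matrix T T R) - 1) (f s) b * v (e b) = 0 := by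
        intro b hb
        have hb' : ∀ s', f s' ≠ b := fun s' hs' => hb (by
          rw [Finset.mem_map]; exact ⟨s', Finset.mem_univ _, hs'⟩)
        rw [Matrix.sub_apply, Pool.Agent.WFS.emb_right f M hb', sub_self, zero_mul]
      rw [← Finset.sum_subset (Finset.subset_univ (Finset.univ.map f)) (fun b _ hb => hs b hb),
        Finset.sum_map]
      refine Finset.sum_congr rfl fun s' _ => ?_
      rw [Matrix.sub_apply, Matrix.sub_apply, Pool.Agent.WFS.emb_range, Matrix.one_apply,
        Matrix.one_apply]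
      by_cases hss : s = s'
      · rw [if_pos hss, if_pos (by rw [hss])]; rfl
      · rw [if_neg hss, if_neg (fun h => hss (f.injective h))]; rfl
    · push Not at ht
      have h0 := em_apply_ne (e := ⇑(f.trans e)) (⇑(f.trans e)) ((M : Matrix S S R) - 1) v (e t)
        (fun s hs => ht s (e.injective hs))
      rw [h0]
      refine Finset.sum_eq_zero fun b _ => ?_
      rw [Matrix.sub_apply, Pool.Agent.WFS.emb_left f M ht, sub_self, zero_mul]
  · push Not at hi
    have h0 := em_apply_ne (e := ⇑(f.trans e)) (⇑(f.trans e)) ((M : Matrix S S R) - 1) v i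
      (fun s => hi (f s))
    rw [h0, em_apply_ne _ _ _ _ hi]

theorem xs_add (i j : S) (h : i ≠ j) (f g : R) :
    Pool.WFS.Nil.xs i j h (f + g) = Pool.WFS.Nil.xs i j h f * Pool.WFS.Nil.xs i j h g := by
  apply Subtype.ext
  rw [Matrix.SpecialLinearGroup.coe_mul, Pool.WFS.Nil.coe_xs, Pool.WFS.Nil.coe_xs,
    Pool.WFS.Nil.coe_xs, mul_add, mul_one, add_mul, one_mul,
    Matrix.single_mul_single_of_ne _ _ _ _ h.symm, add_zero, Matrix.single_add, add_assoc]

theorem xs_zero (i j : S) (h : i ≠ j) :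
    Pool.WFS.Nil.xs i j h (0 : R) = 1 := by
  apply Subtype.ext
  rw [Pool.WFS.Nil.coe_xs, Matrix.single_zero, add_zero]
  rfl

theorem xs_neg (i j : S) (h : i ≠ j) (f : R) :
    Pool.WFS.Nil.xs i j h (-f) = (Pool.WFS.Nil.xs i j h f)⁻¹ := by
  rw [eq_inv_iff_mul_eq_one, ← xs_add, neg_add_cancel, xs_zero]

/-- `1 + X^N r E_ij` is a product of letters -/
theorem xs_mem_LetN (i j : S) (h : i ≠ j) (N : ℕ) (r : R) :
    Pool.WFS.Nil.xs i j h (X ^ N * r) ∈ Subgroup.closure (Pool.Agent.WFS.LetN S N) := by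
  induction r using Polynomial.induction_on' with
  | add p q hp hq =>
    rw [mul_add, xs_add]
    exact Subgroup.mul_mem _ hp hq
  | monomial n a =>
    have key : ∀ b : ℕ, Pool.WFS.Nil.xs i j h (X ^ N * monomial n (b : ℤ)) ∈
        Subgroup.closure (Pool.Agent.WFS.LetN S N) := by
      intro b
      induction b with
      | zero =>
        rw [Nat.cast_zero, monomial_zero_right, mul_zero, xs_zero]
        exact Subgroup.one_mem _
      | succ b ih =>
        rw [Nat.cast_succ, map_add, mul_add, xs_add]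
        refine Subgroup.mul_mem _ ih (Subgroup.subset_closure ?_)
        refine ⟨i, j, N + n, h, Nat.le_add_right _ _, 1, Or.inl rfl, ?_⟩
        rw [Pool.WFS.Nil.coe_xs]
        congr 2
        rw [← C_mul_X_pow_eq_monomial, pow_add]
        simp
    obtain ⟨b, rfl | rfl⟩ := Int.eq_nat_or_neg a
    · exact key b
    · rw [monomial_neg, mul_neg, xs_neg]
      exact Subgroup.inv_mem _ (key b)

/-- the way back: a finite index set -/
theorem emb_refl_mem {N : ℕ} {g : G S} (hg : g ∈ Lts (Set.univ : Set S) N) :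
    ∃ M ∈ Subgroup.closure (Pool.Agent.WFS.LetN S N), emb (Function.Embedding.refl S) M = g := by
  induction hg using Subgroup.closure_induction with
  | mem x hx =>
    obtain ⟨i, j, r, hij, _, _, rfl⟩ := hx
    exact ⟨_, xs_mem_LetN i j hij N r, emb_xs (Function.Embedding.refl S) i j hij _⟩
  | one => exact ⟨1, Subgroup.one_mem _, emb_one _⟩
  | mul x y _ _ hx hy =>
    obtain ⟨M, hM, rfl⟩ := hx
    obtain ⟨M', hM', rfl⟩ := hy
    exact ⟨M * M', Subgroup.mul_mem _ hM hM', emb_mul _ _ _⟩
  | inv x _ hx =>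
    obtain ⟨M, hM, rfl⟩ := hx
    exact ⟨M⁻¹, Subgroup.inv_mem _ hM, emb_inv _ _⟩

theorem mem_closure_of_emb {N : ℕ} {M : Matrix.SpecialLinearGroup S R}
    (h : emb (Function.Embedding.refl S) M ∈ Lts (Set.univ : Set S) N) :
    M ∈ Subgroup.closure (Pool.Agent.WFS.LetN S N) := by
  obtain ⟨M', hM', h'⟩ := emb_refl_mem h
  rwa [← emb_injective _ h']

end

end Pool.WFS.K
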