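import Pool.Agent.WFS.K.Row

/-! # The elementary groups with supports (helper73, WFS, module K)

`J : Set ι` is a set of indices, `PPs J` the group generated by the `xe i j r`, `i, j ∈ J`,
`Es J a` the subgroup generated by the `PPs J`-conjugates of the `xe i j (X^a r)`, `i, j ∈ J`. -/

set_option autoImplicit false
set_option linter.all false
set_option maxHeartbeats 400000

noncomputable section

namespace Pool.WFS.K

open Polynomial
open scoped Classical

variable {ι : Type}

/-- the elementary group of `J` -/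
def PPs (J : Set ι) : Subgroup (G ι) :=
  Subgroup.closure {g | ∃ i j r, i ≠ j ∧ i ∈ J ∧ j ∈ J ∧ g = xe i j r}

/-- `E(ℤ[X], (X^a))` on the indices of `J` -/
def Es (J : Set ι) (a : ℕ) : Subgroup (G ι) :=
  Subgroup.closure {g | ∃ p ∈ PPs J, ∃ i j r, i ≠ j ∧ i ∈ J ∧ j ∈ J ∧
    g = p * xe i j (X ^ a * r) * p⁻¹}

/-- products of elementary automorphisms divisible by `X^a`, indices in `J` -/
def Lts (J : Set ι) (a : ℕ) : Subgroup (G ι) :=
  Subgroup.closure {g | ∃ i j r, i ≠ j ∧ i ∈ J ∧ j ∈ J ∧ g = xe i j (X ^ a * r)}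

/-- the commutator `[x_ij(X), x_ji(X^a)]` -/
def Cab (i j : ι) (a b : ℕ) : G ι :=
  xe i j (X ^ a) * xe j i (X ^ b) * (xe i j (X ^ a))⁻¹ * (xe j i (X ^ b))⁻¹

theorem xe_mem_PPs {J : Set ι} {i j : ι} (h : i ≠ j) (hi : i ∈ J) (hj : j ∈ J) (r : R) :
    xe i j r ∈ PPs J :=
  Subgroup.subset_closure ⟨i, j, r, h, hi, hj, rfl⟩

theorem xe_mem_Lts {J : Set ι} {i j : ι} (h : i ≠ j) (hi : i ∈ J) (hj : j ∈ J) {a : ℕ} {r : R}
    (hr : X ^ a ∣ r) : xe i j r ∈ Lts J a := by
  obtain ⟨s, rfl⟩ := hr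
  exact Subgroup.subset_closure ⟨i, j, s, h, hi, hj, rfl⟩

theorem xe_mem_Es {J : Set ι} {i j : ι} (h : i ≠ j) (hi : i ∈ J) (hj : j ∈ J) {a : ℕ} {r : R}
    (hr : X ^ a ∣ r) : xe i j r ∈ Es J a := by
  obtain ⟨s, rfl⟩ := hr
  exact Subgroup.subset_closure ⟨1, (PPs J).one_mem, i, j, s, h, hi, hj, by simp⟩

theorem PPs_mono {J J' : Set ι} (h : J ⊆ J') : PPs J ≤ PPs J' := by
  rw [PPs, Subgroup.closure_le]
  rintro _ ⟨i, j, r, hij, hi, hj, rfl⟩
  exact xe_mem_PPs hij (h hi) (h hj) r

theorem Es_mono {J J' : Set ι} (h : J ⊆ J') (a : ℕ) : Es J a ≤ Es J' a := by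
  rw [Es, Subgroup.closure_le]
  rintro _ ⟨p, hp, i, j, r, hij, hi, hj, rfl⟩
  exact Subgroup.subset_closure ⟨p, PPs_mono h hp, i, j, r, hij, h hi, h hj, rfl⟩

theorem Lts_mono {J J' : Set ι} (h : J ⊆ J') (a : ℕ) : Lts J a ≤ Lts J' a := by
  rw [Lts, Subgroup.closure_le]
  rintro _ ⟨i, j, r, hij, hi, hj, rfl⟩
  exact xe_mem_Lts hij (h hi) (h hj) (dvd_mul_right _ _)

theorem Es_le_PPs (J : Set ι) (a : ℕ) : Es J a ≤ PPs J := by
  rw [Es, Subgroup.closure_le]
  rintro _ ⟨p, hp, i, j, r, hij, hi, hj, rfl⟩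
  exact (PPs J).mul_mem ((PPs J).mul_mem hp (xe_mem_PPs hij hi hj _)) ((PPs J).inv_mem hp)

theorem Lts_le_Es (J : Set ι) (a : ℕ) : Lts J a ≤ Es J a := by
  rw [Lts, Subgroup.closure_le]
  rintro _ ⟨i, j, r, hij, hi, hj, rfl⟩
  exact xe_mem_Es hij hi hj (dvd_mul_right _ _)

theorem conj_mem_Es {J : Set ι} {a : ℕ} {p g : G ι} (hp : p ∈ PPs J) (hg : g ∈ Es J a) :
    p * g * p⁻¹ ∈ Es J a := by
  induction hg using Subgroup.closure_induction with
  | mem x hx =>
    obtain ⟨q, hq, i, j, r, hij, hi, hj, rfl⟩ := hx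
    refine Subgroup.subset_closure ⟨p * q, (PPs J).mul_mem hp hq, i, j, r, hij, hi, hj, ?_⟩
    group
  | one => simpa using (Es J a).one_mem
  | mul x y _ _ hx hy =>
    have := (Es J a).mul_mem hx hy
    convert this using 1
    group
  | inv x _ hx =>
    have := (Es J a).inv_mem hx
    convert this using 1
    group

theorem Es_anti (J : Set ι) {a b : ℕ} (h : a ≤ b) : Es J b ≤ Es J a := by
  rw [Es, Subgroup.closure_le]
  rintro _ ⟨p, hp, i, j, r, hij, hi, hj, rfl⟩
  apply conj_mem_Es hp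
  exact xe_mem_Es hij hi hj ⟨X ^ (b - a) * r, by rw [← mul_assoc, ← pow_add, Nat.add_sub_cancel' h]⟩

theorem Lts_anti (J : Set ι) {a b : ℕ} (h : a ≤ b) : Lts J b ≤ Lts J a := by
  rw [Lts, Subgroup.closure_le]
  rintro _ ⟨i, j, r, hij, hi, hj, rfl⟩
  exact xe_mem_Lts hij hi hj ⟨X ^ (b - a) * r, by rw [← mul_assoc, ← pow_add, Nat.add_sub_cancel' h]⟩

theorem Es_zero (J : Set ι) : Es J 0 = PPs J := by
  apply le_antisymm (Es_le_PPs J 0)
  rw [PPs, Subgroup.closure_le]
  rintro _ ⟨i, j, r, hij, hi, hj, rfl⟩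
  exact xe_mem_Es hij hi hj (by simp)

theorem PPs_le_PP (J : Set ι) : PPs J ≤ PP ι := by
  rw [PPs, Subgroup.closure_le]
  rintro _ ⟨i, j, r, hij, hi, hj, rfl⟩
  exact xe_mem hij r

theorem Es_le_E (J : Set ι) (a : ℕ) : Es J a ≤ E ι a := by
  rw [Es, Subgroup.closure_le]
  rintro _ ⟨p, hp, i, j, r, hij, hi, hj, rfl⟩
  exact Subgroup.subset_closure ⟨p, PPs_le_PP J hp, i, j, r, hij, rfl⟩

theorem Es_le_Gam (J : Set ι) (a : ℕ) : Es J a ≤ Gam ι a := (Es_le_E J a).trans (E_le_Gam a)

/-- the indices outside `J` do not occur -/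
theorem Fr_of_mem_PPs {J : Set ι} {g : G ι} (hg : g ∈ PPs J) {l : ι} (hl : l ∉ J) : Fr l g := by
  induction hg using Subgroup.closure_induction with
  | mem x hx =>
    obtain ⟨i, j, r, hij, hi, hj, rfl⟩ := hx
    exact Fr.xe hij (fun h : l = i => hl (by rw [h]; exact hi)) (fun h : l = j => hl (by rw [h]; exact hj)) r
  | one => exact Fr.one l
  | mul x y _ _ hx hy => exact hx.mul hy
  | inv x _ hx => exact hx.inv

theorem Cab_mem_PPs {J : Set ι} {i j : ι} (hij : i ≠ j) (hi : i ∈ J) (hj : j ∈ J) (a b : ℕ) :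
    Cab i j a b ∈ PPs J :=
  (PPs J).mul_mem ((PPs J).mul_mem ((PPs J).mul_mem (xe_mem_PPs hij hi hj _)
    (xe_mem_PPs hij.symm hj hi _)) ((PPs J).inv_mem (xe_mem_PPs hij hi hj _)))
    ((PPs J).inv_mem (xe_mem_PPs hij.symm hj hi _))

/-- a column with indices in `J` -/
theorem col_mem_Lts {J : Set ι} {a : ℕ} {l : ι} (hlJ : l ∈ J) {u : V ι} (hl : u l = 0)
    (hJ : ∀ i, i ∉ J → u i = 0) (hu : ∀ i, X ^ a ∣ u i) :
    tau (co l) u ∈ Lts J a := by
  induction u using Finsupp.induction with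
  | zero => rw [tau_zero_right]; exact (Lts J a).one_mem
  | single_add k r f hk hr ih =>
    have hfk : f k = 0 := Finsupp.notMem_support_iff.1 hk
    by_cases hkl : k = l
    · subst hkl
      rw [Finsupp.add_apply, Finsupp.single_eq_same, hfk, add_zero] at hl
      exact absurd hl hr
    · have hfl : f l = 0 := by
        rw [Finsupp.add_apply, Finsupp.single_apply, if_neg hkl, zero_add] at hl
        exact hl
      have hkJ : k ∈ J := by
        by_contra hne
        have := hJ k hne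
        rw [Finsupp.add_apply, Finsupp.single_eq_same, hfk, add_zero] at this
        exact hr this
      rw [tau_add_right (co_single hkl r) hfl]
      have hkr : X ^ a ∣ r := by
        have := hu k
        rwa [Finsupp.add_apply, Finsupp.single_eq_same, hfk, add_zero] at this
      have hother : ∀ i, i ≠ k → (Finsupp.single k r + f) i = f i := by
        intro i hik
        rw [Finsupp.add_apply, Finsupp.single_apply, if_neg (Ne.symm hik), zero_add]
      refine (Lts J a).mul_mem (xe_mem_Lts hkl hkJ hlJ hkr) (ih hfl ?_ ?_)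
      · intro i hi
        by_cases hik : i = k
        · rw [hik]; exact hfk
        · rw [← hother i hik]; exact hJ i hi
      · intro i
        by_cases hik : i = k
        · rw [hik, hfk]; exact dvd_zero _
        · rw [← hother i hik]; exact hu i

/-- a row with indices in `J` -/
theorem row_mem_Lts {J : Set ι} {a : ℕ} {l : ι} (hlJ : l ∈ J) (s : Finset ι) : ∀ {φ : D ι},
    (∀ i, φ (Finsupp.single i 1) ≠ 0 → i ∈ s) → (∀ i, i ∉ J → φ (Finsupp.single i 1) = 0) →
    φ (Finsupp.single l 1) = 0 →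
    (∀ i, X ^ a ∣ φ (Finsupp.single i 1)) → tau φ (Finsupp.single l 1) ∈ Lts J a := by
  induction s using Finset.induction_on with
  | empty =>
    intro φ h _ _ _
    have : φ = 0 := by
      apply dual_ext
      intro i
      by_contra hne
      exact absurd (h i (by simpa using hne)) (by simp)
    rw [this, tau_zero_left]
    exact (Lts J a).one_mem
  | insert k s hk ih =>
    intro φ h hJ hl hd
    by_cases hkl : k = l ∨ k ∉ J
    · apply ih _ hJ hl hd
      intro i hi
      rcases Finset.mem_insert.1 (h i hi) with h1 | h1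
      · rcases hkl with h2 | h2
        · exact absurd (by rw [h1, h2]; exact hl) hi
        · exact absurd (by rw [h1]; exact hJ k h2) hi
      · exact h1
    · push Not at hkl
      obtain ⟨hkl, hkJ⟩ := hkl
      set c := φ (Finsupp.single k 1) with hc
      set ψ : D ι := φ - c • co k with hψ
      have e1 : φ = c • co k + ψ := by rw [hψ]; abel
      have hck : co k (Finsupp.single l 1) = 0 := co_single (Ne.symm hkl) 1
      have hψl : ψ (Finsupp.single l 1) = 0 := by
        rw [hψ, LinearMap.sub_apply, LinearMap.smul_apply, hck, smul_zero, hl, sub_zero]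
      have hψk : ψ (Finsupp.single k 1) = 0 := by
        rw [hψ, LinearMap.sub_apply, LinearMap.smul_apply, co_apply, Finsupp.single_eq_same,
            smul_eq_mul, mul_one, ← hc, sub_self]
      have hψi : ∀ i, i ≠ k → ψ (Finsupp.single i 1) = φ (Finsupp.single i 1) := by
        intro i hik
        rw [hψ, LinearMap.sub_apply, LinearMap.smul_apply, co_single hik, smul_zero, sub_zero]
      rw [e1, tau_add_left (by rw [LinearMap.smul_apply, hck, smul_zero]) hψl, tau_smul_left hck]
      refine (Lts J a).mul_mem ?_ (ih ?_ ?_ hψl ?_)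
      · rw [Finsupp.smul_single, smul_eq_mul, mul_one]
        exact xe_mem_Lts (Ne.symm hkl) hlJ hkJ (hd k)
      · intro i hi
        have hik : i ≠ k := by
          rintro rfl
          exact hi hψk
        rw [hψi i hik] at hi
        exact Finset.mem_of_mem_insert_of_ne (h i hi) hik
      · intro i hi
        by_cases hik : i = k
        · rw [hik, hψk]
        · rw [hψi i hik, hJ i hi]
      · intro i
        by_cases hik : i = k
        · rw [hik, hψk]; exact dvd_zero _
        · rw [hψi i hik]; exact hd i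

end Pool.WFS.K
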