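import Pool.Agent.WFK.Main3
import Pool.Agent.WFS.K.Se
import Pool.Agent.WFS.K.TorsS
import Pool.Agent.WFS.K.TitsS

/-! # The output of module K (helper73) -/

set_option autoImplicit false
set_option linter.all false

namespace Pool.WFS.K

open Polynomial
open scoped Classical

theorem kaStmt : KaStmt := by
  intro ι a ha J U hJU g hg hG
  -- two indices of `J`: if there are none, `Es J a` is trivial
  by_cases h2 : ∃ i j : ι, i ≠ j ∧ i ∈ J ∧ j ∈ J
  · obtain ⟨i, j, hij, hi, hj⟩ := h2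
    have hex : ∀ k : ℕ, k ≤ 5 → ∃ s : Fin k → ι, Function.Injective s ∧ (∀ m, s m ∉ J) ∧
        ∀ m, s m ∈ U := by
      intro k
      induction k with
      | zero => intro _; exact ⟨Fin.elim0, fun x => x.elim0, fun x => x.elim0, fun x => x.elim0⟩
      | succ k ih =>
        intro hk
        obtain ⟨s, h1, h2, h3⟩ := ih (by omega)
        obtain ⟨l, l1, l2, l3⟩ := hJU.2 (Finset.univ.image s) (by
          refine Finset.card_image_le.trans ?_
          rw [Finset.card_univ, Fintype.card_fin]; omega)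
        refine ⟨Fin.cons l s, ?_, ?_, ?_⟩
        · rw [Fin.cons_injective_iff]
          refine ⟨?_, h1⟩
          rintro ⟨m, hm⟩
          exact l3 (Finset.mem_image.2 ⟨m, Finset.mem_univ _, hm⟩)
        · intro m
          refine Fin.cases ?_ (fun m => ?_) m
          · rw [Fin.cons_zero]; exact l2
          · rw [Fin.cons_succ]; exact h2 m
        · intro m
          refine Fin.cases ?_ (fun m => ?_) m
          · rw [Fin.cons_zero]; exact l1
          · rw [Fin.cons_succ]; exact h3 m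
    obtain ⟨s, h1, h2, h3⟩ := hex 5 le_rfl
    have h := K_s hJU.1 hij hi hj s h1 h2 h3 ha hg hG
    refine (Subgroup.closure_mono ?_) h
    rintro x (hx | hx)
    · exact Or.inl hx
    · rw [Set.mem_singleton_iff] at hx
      exact Or.inr ⟨i, j, hij, hJU.1 hi, hJU.1 hj, hx⟩
  · have : g = 1 := by
      have h3 : Es J a ≤ ⊥ := by
        rw [Es, Subgroup.closure_le]
        rintro _ ⟨p, hp, i, j, r, hij, hi, hj, rfl⟩
        exact absurd ⟨i, j, hij, hi, hj⟩ h2
      exact (Subgroup.mem_bot).1 (h3 hg)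
    rw [this]
    exact (HJ U a).one_mem

theorem torsStmt : TorsStmt := by
  intro ι J i j l hij hil hjl hi hj hl a ha
  exact tors_s hij hjl hil hi hj hl a

theorem titsStmt : TitsStmt := by
  intro T _ _ hT N hN
  exact tits T hT N

end Pool.WFS.K

namespace Pool.Agent.WFS

open Matrix Pool.WFS.Lad Polynomial

theorem K_out (N : ℕ) (hN : 1 ≤ N) (S : Type) [Fintype S] [DecidableEq S] (M : SL S ℤ[X])
    (hM : M ∈ Pool.WFS.Nil.E1 S 1) (hc : Cg (X ^ N) M) (Y0 : ℕ → SL (Fin 2) ℤ[X])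
    (hY0 : ∀ m, 2 ≤ m → m ≤ 2 * N → Cg (X ^ (2 * N)) (Y0 m) ∧ ClsK m (Y0 m)) :
    ∃ j : ℕ → ℕ, (∀ m, j m ≤ m) ∧ (∀ m, m < 2 → j m = 0) ∧
      ∀ Y : ℕ → SL (Fin 2) ℤ[X],
        (∀ m, 2 ≤ m → m ≤ 2 * N → (Y0 m)⁻¹ * Y m ∈ Pool.WFS.Nil.E1 (Fin 2) (2 * N)) →
        emb (Function.Embedding.inl : S ↪ S ⊕ Fin (cK N)) M *
          (((List.range (2 * N + 1)).map fun m => (emb (prK S N) (Y m)) ^ j m).prod)⁻¹ ∈
          Subgroup.closure (Lt (S ⊕ Fin (cK N)) N) :=
  Pool.WFS.K.K_out_of Pool.WFS.K.kaStmt Pool.WFS.K.torsStmt Pool.WFS.K.titsStmt N hN S M hM hc Y0 hY0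

end Pool.Agent.WFS
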