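import Pool.Agent.WFK.SDefs

/-! # Centrality with supports (helper73, after helper91's `K.central`) -/

set_option autoImplicit false
set_option linter.all false
set_option maxHeartbeats 400000

noncomputable section

namespace Pool.WFS.K

open Polynomial
open scoped Classical

variable {ι : Type}

/-- `J'` has at least three indices more than `J` (in the form which is used) -/
def Sp (J J' : Set ι) : Prop := J ⊆ J' ∧ ∀ i j : ι, ∃ l ∈ J', l ∉ J ∧ l ≠ i ∧ l ≠ j

theorem comm_mod_s73 {J : Set ι} {b : ℕ} {z A B eA eB : G ι} (hA : A ∈ PPs J) (hB : B ∈ PPs J)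
    (h1 : eA ∈ Es J b) (h2 : eB ∈ Es J b) (e1 : z * A * z⁻¹ = eA * A) (e2 : z * B * z⁻¹ = eB * B) :
    z * (A * B * A⁻¹ * B⁻¹) * z⁻¹ * (A * B * A⁻¹ * B⁻¹)⁻¹ ∈ Es J b := by
  have hp : A * B * A⁻¹ * B⁻¹ ∈ PPs J :=
    (PPs J).mul_mem ((PPs J).mul_mem ((PPs J).mul_mem hA hB) ((PPs J).inv_mem hA)) ((PPs J).inv_mem hB)
  have hc : A * B * A⁻¹ ∈ PPs J := (PPs J).mul_mem ((PPs J).mul_mem hA hB) ((PPs J).inv_mem hA)
  have e3 : z * (A * B * A⁻¹ * B⁻¹) * z⁻¹ =
      (z * A * z⁻¹) * (z * B * z⁻¹) * (z * A * z⁻¹)⁻¹ * (z * B * z⁻¹)⁻¹ := by group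
  rw [e3, e1, e2]
  have e4 : eA * A * (eB * B) * (eA * A)⁻¹ * (eB * B)⁻¹ * (A * B * A⁻¹ * B⁻¹)⁻¹ =
      eA * (A * eB * A⁻¹) * ((A * B * A⁻¹) * eA⁻¹ * (A * B * A⁻¹)⁻¹) *
        ((A * B * A⁻¹ * B⁻¹) * eB⁻¹ * (A * B * A⁻¹ * B⁻¹)⁻¹) := by group
  rw [e4]
  exact (Es J b).mul_mem ((Es J b).mul_mem ((Es J b).mul_mem h1 (conj_mem_Es hA h2))
    (conj_mem_Es hc ((Es J b).inv_mem h1))) (conj_mem_Es hp ((Es J b).inv_mem h2))

/-- centrality: `[z, p] ∈ Es J' b` for `z ∈ PPs J ∩ Γ_b`, `p ∈ PPs J'`, `J' = J + 3` -/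
theorem centralS {J J' : Set ι} (hJ : Sp J J') {b : ℕ} {z : G ι} (hz : z ∈ PPs J)
    (hz' : z ∈ Gam ι b) {p : G ι} (hp : p ∈ PPs J') : z * p * z⁻¹ * p⁻¹ ∈ Es J' b := by
  induction hp using Subgroup.closure_induction with
  | mem x hx =>
    obtain ⟨i, j, r, hij, hi, hj, rfl⟩ := hx
    obtain ⟨l, hlJ', hlJ, hli, hlj⟩ := hJ.2 i j
    have hfr : Fr l z := Fr_of_mem_PPs hz hlJ
    have hA : z * xe i l r * z⁻¹ * (xe i l r)⁻¹ ∈ Es J' b := by
      unfold xe
      have hd : dl z (co l) = co l := by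
        apply LinearMap.ext
        intro v
        rw [dl_apply, co_apply, co_apply, hfr.inv.2]
      have h0 : co l (z (Finsupp.single i r)) = 0 := by
        rw [co_apply, hfr.2, Finsupp.single_apply, if_neg (Ne.symm hli)]
      have h1 : co l (-(Finsupp.single i r)) = 0 := by
        rw [map_neg, co_single (Ne.symm hli), neg_zero]
      rw [conj_tau, hd, tau_inv, ← tau_add_right h0 h1]
      apply Lts_le_Es
      apply col_mem_Lts hlJ'
      · rw [← co_apply l, map_add, h0, h1, add_zero]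
      · intro k hk
        have hkJ : k ∉ J := fun h => hk (hJ.1 h)
        have hfk : Fr k z := Fr_of_mem_PPs hz hkJ
        rw [Finsupp.add_apply, hfk.2, Finsupp.neg_apply, add_neg_cancel]
      · intro k
        have := hz' (Finsupp.single i r) k
        rwa [sub_eq_add_neg] at this
    have hB : z * xe l j 1 * z⁻¹ * (xe l j 1)⁻¹ ∈ Es J' b := by
      unfold xe
      have h0 : dl z (co j) (Finsupp.single l 1) = 0 := by
        rw [dl_apply, hfr.inv.1, co_single hlj]
      have h1 : (-(co j)) (Finsupp.single l (1 : R)) = 0 := by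
        rw [LinearMap.neg_apply, co_single hlj, neg_zero]
      have hout : ∀ k, k ∉ J' → (dl z (co j) + -(co j)) (Finsupp.single k (1 : R)) = 0 := by
        intro k hk
        have hkJ : k ∉ J := fun h => hk (hJ.1 h)
        have hfk : Fr k z := Fr_of_mem_PPs hz hkJ
        rw [LinearMap.add_apply, dl_apply, hfk.inv.1, LinearMap.neg_apply, add_neg_cancel]
      rw [conj_tau, hfr.1, tau_inv, ← tau_neg_left, ← tau_add_left h0 h1]
      apply Lts_le_Es
      have hfin : IsRow (dl z (co j) + -(co j)) :=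
        (IsRow.dl (PPs_le_PP J hz) (IsRow.co j)).add (IsRow.co j).neg
      apply row_mem_Lts hlJ' hfin.toFinset (fun i hi => by simpa using hi) hout
      · rw [LinearMap.add_apply, h0, h1, add_zero]
      · intro k
        have := (Gam ι b).inv_mem hz' (Finsupp.single k 1) j
        rw [LinearMap.add_apply, LinearMap.neg_apply, ← sub_eq_add_neg, dl_apply, co_apply,
          co_apply]
        rwa [Finsupp.sub_apply] at this
    have e1 := xe_comm hij (Ne.symm hli) hlj r 1
    rw [mul_one] at e1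
    rw [e1]
    refine comm_mod_s73 (xe_mem_PPs (Ne.symm hli) hi hlJ' r) (xe_mem_PPs hlj hlJ' hj 1) hA hB ?_ ?_
    · group
    · group
  | one => simp [(Es J' b).one_mem]
  | mul x y hx1 hy1 hx hy =>
    have := (Es J' b).mul_mem hx (conj_mem_Es hx1 hy)
    convert this using 1
    group
  | inv x hx1 hx =>
    have := conj_mem_Es ((PPs J').inv_mem hx1) ((Es J' b).inv_mem hx)
    convert this using 1
    group

end Pool.WFS.K
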