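import Pool.Agent.WFK.Quo
import Pool.Agent.WFK.Dict

/-! # One step of the descent (helper73) -/

set_option autoImplicit false
set_option linter.all false
set_option maxHeartbeats 400000

noncomputable section

namespace Pool.WFS.K

open Polynomial
open scoped Classical

variable {ι : Type}

/-- the classes `Cab i j 1 a` generate, up to `Es J' (a+1)` -/
def HJ (J : Set ι) (a : ℕ) : Subgroup (G ι) :=
  Subgroup.closure ((Es J (a + 1) : Set (G ι)) ∪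
    {g | ∃ i j, i ≠ j ∧ i ∈ J ∧ j ∈ J ∧ g = Cab i j 1 a})

theorem HJ_le {J : Set ι} {a : ℕ} : HJ J a ≤ PPs J := by
  rw [HJ, Subgroup.closure_le]
  rintro g (hg | ⟨i, j, hij, hi, hj, rfl⟩)
  · exact Es_le_PPs _ _ hg
  · exact Cab_mem_PPs hij hi hj _ _

/-- five further indices -/
def Five (J : Set ι) (p0 p1 : ι) : Prop :=
  Big J ∧ ∀ i j : ι, i ∈ J → j ∈ J → ∃ p ∈ J, p ≠ i ∧ p ≠ j ∧ p ≠ p0 ∧ p ≠ p1

theorem HJ_class {J : Set ι} {p0 p1 : ι} (h5 : Five J p0 p1) (h01 : p0 ≠ p1) (h0 : p0 ∈ J)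
    (h1 : p1 ∈ J) {a : ℕ} {g : G ι} (hg : g ∈ HJ J a) :
    ∃ z : ℤ, cl J (a + 1) (HJ_le hg) = cC J (a + 1) h01 h0 h1 a ^ z := by
  have key : ∀ g, g ∈ HJ J a → ∀ (hg : g ∈ PPs J), ∃ z : ℤ,
      cl J (a + 1) hg = cC J (a + 1) h01 h0 h1 a ^ z := by
    intro g hg
    unfold HJ at hg
    induction hg using Subgroup.closure_induction with
    | mem x hx =>
      intro hxP
      rcases hx with hx | ⟨i, j, hij, hi, hj, rfl⟩
      · refine ⟨0, ?_⟩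
        rw [zpow_zero, cl_eq_one]; exact hx
      · refine ⟨1, ?_⟩
        rw [zpow_one]
        exact cC_indep h5.1 hij h01 hi hj h0 h1 a (h5.2 i j hi hj)
    | one => intro _; exact ⟨0, by rw [zpow_zero]; rfl⟩
    | mul x y hx' hy' hx hy =>
      intro hxy
      have hx1 : x ∈ PPs J := HJ_le hx'
      have hy1 : y ∈ PPs J := HJ_le hy'
      obtain ⟨z, hz⟩ := hx hx1
      obtain ⟨z', hz'⟩ := hy hy1
      refine ⟨z + z', ?_⟩
      rw [zpow_add, ← hz, ← hz']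
      rfl
    | inv x hx' hx =>
      intro hxi
      have hx1 : x ∈ PPs J := HJ_le hx'
      obtain ⟨z, hz⟩ := hx hx1
      refine ⟨-z, ?_⟩
      rw [zpow_neg, ← hz]
      rfl
  exact key g hg (HJ_le hg)

theorem cl_pow {J : Set ι} {b : ℕ} {g : G ι} (hg : g ∈ PPs J) (n : ℕ) :
    cl J b ((PPs J).pow_mem hg n) = cl J b hg ^ n := rfl

/-- one step -/
theorem step {J' : Set ι} {p0 p1 : ι} (h5 : Five J' p0 p1) (h01 : p0 ≠ p1) (h0 : p0 ∈ J')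
    (h1 : p1 ∈ J') {a : ℕ} (hT : Cab p0 p1 1 a ^ (a + 1) ∈ Es J' (a + 1)) {h : G ι}
    (hh : h ∈ HJ J' a) {Y : G ι} (hY : Y ∈ PPs J')
    (hYc : cl J' (a + 1) hY = cC J' (a + 1) h01 h0 h1 a ∨
      cl J' (a + 1) hY = (cC J' (a + 1) h01 h0 h1 a)⁻¹) :
    ∃ n : ℕ, n ≤ a ∧ h * (Y ^ n)⁻¹ ∈ Es J' (a + 1) := by
  obtain ⟨z, hz⟩ := HJ_class h5 h01 h0 h1 hh
  set c := cC J' (a + 1) h01 h0 h1 a with hc
  have hc1 : c ^ (a + 1) = 1 := by
    have := (cl_eq_one (J := J') (b := a + 1)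
      ((PPs J').pow_mem (Cab_mem_PPs h01 h0 h1 1 a) (a + 1))).2 hT
    rw [cl_pow] at this
    exact this
  obtain ⟨w, hw⟩ : ∃ w : ℤ, cl J' (a + 1) (HJ_le hh) = cl J' (a + 1) hY ^ w := by
    rcases hYc with h | h
    · exact ⟨z, by rw [h, hz]⟩
    · exact ⟨-z, by rw [h, hz, inv_zpow', neg_neg]⟩
  have hY1 : cl J' (a + 1) hY ^ (a + 1) = 1 := by
    rcases hYc with h | h
    · rw [h, hc1]
    · rw [h, inv_pow, hc1, inv_one]
  have hpos : (0 : ℤ) < ((a + 1 : ℕ) : ℤ) := by positivity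
  refine ⟨(w % ((a + 1 : ℕ) : ℤ)).toNat, ?_, ?_⟩
  · have h2 := Int.emod_lt_of_pos w hpos
    have h3 := Int.emod_nonneg w (ne_of_gt hpos)
    omega
  · have h3 := Int.emod_nonneg w (ne_of_gt hpos)
    have e1 : cl J' (a + 1) hY ^ (w % ((a + 1 : ℕ) : ℤ)).toNat = cl J' (a + 1) hY ^ w := by
      have h4 : ((w % ((a + 1 : ℕ) : ℤ)).toNat : ℤ) = w % ((a + 1 : ℕ) : ℤ) := Int.toNat_of_nonneg h3
      rw [← zpow_natCast, h4]
      conv_rhs => rw [← Int.mul_ediv_add_emod w ((a + 1 : ℕ) : ℤ), zpow_add, zpow_mul, zpow_natCast,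
        hY1, one_zpow, one_mul]
    rw [← cl_eq (HJ_le hh) ((PPs J').pow_mem hY _), cl_pow hY, e1, hw]

end Pool.WFS.K
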