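import Pool.Agent.WFK.Desc
import Pool.Agent.WFS.KU

/-! # The descent and the output of module K, from `(K_a)`, torsion and Tits (helper73) -/

set_option autoImplicit false
set_option linter.all false
set_option maxHeartbeats 400000

noncomputable section

namespace Pool.WFS.K

open Polynomial
open Pool.WFS.Lad (Cg SL)
open Pool.Agent.WFS (cK prK Cc2 ClsK)
open scoped Classical

section
variable {ι : Type}

theorem cl_conj_central {J : Set ι} {b : ℕ} {p z : G ι} (hp : p ∈ PPs J) (hz : z ∈ PPs J)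
    (hc : ∀ q, Commute (cl J b hz) q) :
    cl J b ((PPs J).mul_mem ((PPs J).mul_mem hp hz) ((PPs J).inv_mem hp)) = cl J b hz := by
  have e : cl J b ((PPs J).mul_mem ((PPs J).mul_mem hp hz) ((PPs J).inv_mem hp)) =
      cl J b hp * cl J b hz * (cl J b hp)⁻¹ := rfl
  rw [e, (hc _).symm.eq, mul_inv_cancel_right]

/-- the class of the commutator with signs -/
theorem cl_sign {J : Set ι} (hB : Big J) {i j : ι} (hij : i ≠ j) (hi : i ∈ J) (hj : j ∈ J)
    {a : ℕ} {s s' : ℤ} (hs : s = 1 ∨ s = -1) (hs' : s' = 1 ∨ s' = -1) :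
    ∃ hP : xe i j (C s * X) * xe j i (C s' * X ^ a) * (xe i j (C s * X))⁻¹ *
      (xe j i (C s' * X ^ a))⁻¹ ∈ PPs J,
      cl J (a + 1) hP = cC J (a + 1) hij hi hj a ∨
      cl J (a + 1) hP = (cC J (a + 1) hij hi hj a)⁻¹ := by
  have hx : ∀ r, xe i j r ∈ PPs J := fun r => xe_mem_PPs hij hi hj r
  have hy : ∀ r, xe j i r ∈ PPs J := fun r => xe_mem_PPs hij.symm hj hi r
  refine ⟨comm_mem_PPs (hx _) (hy _), ?_⟩
  have hcen := cC_central hB hij hi hj a
  rw [cC_eq] at hcen
  rw [← cl_comm (hx (C s * X)) (hy (C s' * X ^ a)) (comm_mem_PPs (hx _) (hy _)) rfl, cC_eq]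
  have e1 : cl J (a + 1) (hx (C (1 : ℤ) * X)) = cl J (a + 1) (hx (X ^ 1)) := by
    apply cl_congr
    rw [C_1, one_mul, pow_one]
  have e2 : cl J (a + 1) (hx (C (-1 : ℤ) * X)) = (cl J (a + 1) (hx (X ^ 1)))⁻¹ := by
    rw [← cl_inv]
    apply cl_congr
    rw [← xe_neg73, pow_one]
    congr 1
    simp
  have e3 : cl J (a + 1) (hy (C (1 : ℤ) * X ^ a)) = cl J (a + 1) (hy (X ^ a)) := by
    apply cl_congr
    rw [C_1, one_mul]
  have e4 : cl J (a + 1) (hy (C (-1 : ℤ) * X ^ a)) = (cl J (a + 1) (hy (X ^ a)))⁻¹ := by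
    rw [← cl_inv]
    apply cl_congr
    rw [← xe_neg73]
    congr 1
    simp
  rcases hs with rfl | rfl <;> rcases hs' with rfl | rfl
  · left; rw [e1, e3]
  · right; rw [e1, e4, inv_inv]
    exact comm_inv_right hcen
  · right; rw [e2, e3, inv_inv]
    exact comm_inv_left hcen
  · left; rw [e2, e4, inv_inv, inv_inv]
    set x := cl J (a + 1) (hx (X ^ 1))
    set y := cl J (a + 1) (hy (X ^ a))
    have h1 := comm_inv_left hcen
    have h2 : ∀ q, Commute (x⁻¹ * y * x⁻¹⁻¹ * y⁻¹) q := by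
      intro q
      rw [inv_inv, h1]
      exact (hcen q).inv_left
    have h3 := comm_inv_right h2
    rw [inv_inv] at h3
    rw [h3, h1, inv_inv]

end

section fin
variable {S : Type} [Fintype S] [DecidableEq S]

/-- the initial segments of the index set -/
def Jk (S : Type) (c k : ℕ) : Set (S ⊕ Fin c) := {x | ∀ i : Fin c, x = Sum.inr i → i.val < k}

theorem inl_mem_Jk {c k : ℕ} (s : S) : (Sum.inl s : S ⊕ Fin c) ∈ Jk S c k := by
  intro i h; cases h

theorem inr_mem_Jk {c k : ℕ} (i : Fin c) : (Sum.inr i : S ⊕ Fin c) ∈ Jk S c k ↔ i.val < k := by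
  constructor
  · intro h; exact h i rfl
  · intro h j hj
    rw [Sum.inr.injEq] at hj
    rw [← hj]; exact h

theorem Jk_mono {c k k' : ℕ} (h : k ≤ k') : Jk S c k ⊆ Jk S c k' :=
  fun x hx i hi => (hx i hi).trans_le h

/-- many new indices -/
def Spare {ι : Type} (J U : Set ι) (k : ℕ) : Prop :=
  J ⊆ U ∧ ∀ s : Finset ι, s.card ≤ k → ∃ l, l ∈ U ∧ l ∉ J ∧ l ∉ s

theorem spare_gen {c k d : ℕ} (hd : k + d + 1 ≤ c) {K : Set (S ⊕ Fin c)}
    (hK : K ⊆ Jk S c k) : Spare K (Jk S c (k + d + 1)) d := by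
  refine ⟨hK.trans (Jk_mono (by omega)), fun s hs => ?_⟩
  by_contra hne
  push Not at hne
  let f : Fin (d + 1) → S ⊕ Fin c := fun i => Sum.inr ⟨k + i.val, by have := i.isLt; omega⟩
  have hf : Function.Injective f := by
    intro i j h
    simp only [f, Sum.inr.injEq, Fin.mk.injEq] at h
    exact Fin.ext (by omega)
  have h1 : ∀ i, f i ∈ s := by
    intro i
    apply hne (f i)
    · rw [inr_mem_Jk]
      show k + i.val < k + d + 1
      have := i.isLt; omega
    · intro h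
      have h2 := hK h
      rw [inr_mem_Jk] at h2
      have : k + i.val < k := h2
      omega
  have h2 : (Finset.univ.image f).card ≤ s.card := Finset.card_le_card (by
    intro x hx
    rw [Finset.mem_image] at hx
    obtain ⟨i, _, rfl⟩ := hx
    exact h1 i)
  rw [Finset.card_image_of_injective _ hf, Finset.card_univ, Fintype.card_fin] at h2
  omega

theorem Sp_of_Spare {ι : Type} {J U : Set ι} (h : Spare J U 2) : Sp J U := by
  refine ⟨h.1, fun i j => ?_⟩
  obtain ⟨l, h1, h2, h3⟩ := h.2 {i, j} Finset.card_le_two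
  refine ⟨l, h1, h2, ?_, ?_⟩
  · rintro rfl; exact h3 (by simp)
  · rintro rfl; exact h3 (by simp)

theorem Big_Jk {c k : ℕ} (hk : 5 ≤ k) (hc : k ≤ c) : Big (Jk S c k) := by
  intro i j hi hj
  have h0 : Spare (∅ : Set (S ⊕ Fin c)) (Jk S c k) 4 := by
    have h := spare_gen (S := S) (c := c) (k := 0) (d := 4) (by omega) (K := ∅) (by simp)
    refine ⟨by simp, fun s hs => ?_⟩
    obtain ⟨l, h1, h2, h3⟩ := h.2 s hs
    exact ⟨l, Jk_mono (by omega) h1, h2, h3⟩
  refine ⟨?_, fun a b => ?_⟩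
  · intro x hx
    rcases hx with rfl | hx
    · exact hi
    · rw [Set.mem_singleton_iff] at hx; rw [hx]; exact hj
  · obtain ⟨l, h1, _, h3⟩ := h0.2 {i, j, a, b} Finset.card_le_four
    simp only [Finset.mem_insert, Finset.mem_singleton, not_or] at h3
    refine ⟨l, h1, ?_, h3.2.2.1, h3.2.2.2⟩
    intro h
    rcases h with h | h
    · exact h3.1 h
    · exact h3.2.1 h

theorem Five_Jk {c k : ℕ} (hk : 5 ≤ k) (hc : k ≤ c) (p0 p1 : S ⊕ Fin c) :
    Five (Jk S c k) p0 p1 := by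
  refine ⟨Big_Jk hk hc, fun i j _ _ => ?_⟩
  have h := spare_gen (S := S) (c := c) (k := 0) (d := 4) (by omega) (K := ∅) (by simp)
  obtain ⟨l, h1, _, h3⟩ := h.2 {i, j, p0, p1} Finset.card_le_four
  simp only [Finset.mem_insert, Finset.mem_singleton, not_or] at h3
  exact ⟨l, Jk_mono (by omega) h1, h3.1, h3.2.1, h3.2.2.1, h3.2.2.2⟩

end fin

end Pool.WFS.K
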