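import Pool.Agent.WFK.Main

/-! # The descent and the output of module K, from `(K_a)`, torsion and Tits (helper73) -/

set_option autoImplicit false
set_option linter.all false
set_option maxHeartbeats 400000

noncomputable section

namespace Pool.WFS.K

open Polynomial
open Pool.WFS.Lad (Cg SL)
open Pool.Agent.WFS (cK prK Cc2 ClsK)
open scoped Classical

theorem emb_Y {ι : Type} (e : Fin 2 ↪ ι) {J : Set ι} (h5 : Five J (e 0) (e 1))
    (h0 : e 0 ∈ J) (h1 : e 1 ∈ J) (h01 : e 0 ≠ e 1)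
    {a : ℕ} {Y : SL (Fin 2) ℤ[X]} (hY : ClsK (a + 1) Y) :
    ∃ hP : emb e Y ∈ PPs J, cl J (a + 1) hP = cC J (a + 1) h01 h0 h1 a ∨
      cl J (a + 1) hP = (cC J (a + 1) h01 h0 h1 a)⁻¹ := by
  obtain ⟨s, s', hs, hs', p, hp, hE⟩ := hY
  rw [Nat.add_sub_cancel] at hE
  have hJ : ∀ k, e k ∈ J := by
    intro k
    fin_cases k
    · exact h0
    · exact h1
  obtain ⟨hC, hCc⟩ := cl_sign h5.1 h01 h0 h1 (a := a) hs hs'
  have eC : emb e (Cc2 s s' a) = xe (e 0) (e 1) (C s * X) * xe (e 1) (e 0) (C s' * X ^ a) *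
      (xe (e 0) (e 1) (C s * X))⁻¹ * (xe (e 1) (e 0) (C s' * X ^ a))⁻¹ := by
    unfold Cc2
    rw [emb_mul, emb_mul, emb_mul, emb_inv, emb_inv, emb_xs, emb_xs]
  have hcen : ∀ q, Commute (cl J (a + 1) hC) q := by
    intro q
    have h := cC_central h5.1 h01 h0 h1 a q
    rcases hCc with h' | h'
    · rw [h']; exact h
    · rw [h']; exact h.inv_left
  have hp' : emb e p ∈ PPs J := emb_mem_PPs e hp hJ
  have hE' := emb_mem_Es e hE hJ
  have hEP := Es_le_PPs J _ hE'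
  have e1 : emb e Y = (emb e p * (xe (e 0) (e 1) (C s * X) * xe (e 1) (e 0) (C s' * X ^ a) *
      (xe (e 0) (e 1) (C s * X))⁻¹ * (xe (e 1) (e 0) (C s' * X ^ a))⁻¹) * (emb e p)⁻¹) *
      emb e ((p * Cc2 s s' a * p⁻¹)⁻¹ * Y) := by
    rw [← eC, ← emb_inv, ← emb_mul, ← emb_mul, ← emb_mul]
    congr 1
    group
  have hQ : (emb e p * (xe (e 0) (e 1) (C s * X) * xe (e 1) (e 0) (C s' * X ^ a) *
      (xe (e 0) (e 1) (C s * X))⁻¹ * (xe (e 1) (e 0) (C s' * X ^ a))⁻¹) * (emb e p)⁻¹) ∈ PPs J :=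
    (PPs J).mul_mem ((PPs J).mul_mem hp' hC) ((PPs J).inv_mem hp')
  have hP : emb e Y ∈ PPs J := by
    rw [e1]; exact (PPs J).mul_mem hQ hEP
  refine ⟨hP, ?_⟩
  have e2 : cl J (a + 1) hP = cl J (a + 1) hC := by
    have e3 : cl J (a + 1) hP = cl J (a + 1) ((PPs J).mul_mem hQ hEP) := cl_congr _ _ e1
    rw [e3, cl_mul hQ hEP, (cl_eq_one hEP).2 hE', mul_one]
    exact cl_conj_central hp' hC hcen
  rw [e2]
  exact hCc

/-- `(K_a)` -/
def KaStmt : Prop := ∀ (ι : Type) (a : ℕ), 1 ≤ a → ∀ (J U : Set ι), Spare J U 8 → ∀ g : G ι,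
  g ∈ Es J a → g ∈ Gam ι (a + 1) → g ∈ HJ U a

/-- torsion -/
def TorsStmt : Prop := ∀ (ι : Type) (J : Set ι) (i j l : ι), i ≠ j → i ≠ l → j ≠ l → i ∈ J →
  j ∈ J → l ∈ J → ∀ a, 1 ≤ a → (Cab i j 1 a) ^ (a + 1) ∈ Es J (a + 1)

/-- Tits -/
def TitsStmt : Prop := ∀ (T : Type) [Fintype T] [DecidableEq T], 3 ≤ Fintype.card T →
  ∀ N : ℕ, 1 ≤ N → Pool.WFS.Nil.E1 T (2 * N) ≤ Subgroup.closure (Pool.Agent.WFS.LetN T N)

section desc
variable {S : Type} [Fintype S] [DecidableEq S]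

theorem prod_mem_PPs {ι : Type} {J : Set ι} (Y : ℕ → G ι) (j : ℕ → ℕ) (n : ℕ)
    (h : ∀ m, m < n → j m ≠ 0 → Y m ∈ PPs J) :
    ((List.range n).map fun m => Y m ^ j m).prod ∈ PPs J := by
  apply Subgroup.list_prod_mem
  intro x hx
  rw [List.mem_map] at hx
  obtain ⟨m, hm, rfl⟩ := hx
  rw [List.mem_range] at hm
  by_cases h0 : j m = 0
  · rw [h0, pow_zero]; exact (PPs J).one_mem
  · exact (PPs J).pow_mem (h m hm h0) _

theorem prod_mem_Gam {ι : Type} {b : ℕ} (Y : ℕ → G ι) (j : ℕ → ℕ) (n : ℕ)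
    (h : ∀ m, m < n → j m ≠ 0 → Y m ∈ Gam ι b) :
    ((List.range n).map fun m => Y m ^ j m).prod ∈ Gam ι b := by
  apply Subgroup.list_prod_mem
  intro x hx
  rw [List.mem_map] at hx
  obtain ⟨m, hm, rfl⟩ := hx
  rw [List.mem_range] at hm
  by_cases h0 : j m = 0
  · rw [h0, pow_zero]; exact (Gam ι b).one_mem
  · exact (Gam ι b).pow_mem (h m hm h0) _

theorem prod_congr {ι : Type} (Y : ℕ → G ι) (j j' : ℕ → ℕ) (n : ℕ)
    (h : ∀ m, m < n → j m = j' m) :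
    ((List.range n).map fun m => Y m ^ j m).prod = ((List.range n).map fun m => Y m ^ j' m).prod := by
  congr 1
  apply List.map_congr_left
  intro m hm
  rw [List.mem_range] at hm
  rw [h m hm]

theorem prK_mem (N k : ℕ) (hk : 2 ≤ k) (i : Fin 2) : prK S N i ∈ Jk S (cK N) k := by
  show (Sum.inr _ : S ⊕ Fin (cK N)) ∈ _
  rw [inr_mem_Jk]
  show i.val < k
  have := i.isLt; omega

theorem descent (hKa : KaStmt) (hTo : TorsStmt) {N : ℕ} (hN : 1 ≤ N)
    {g : G (S ⊕ Fin (cK N))} (hg : g ∈ Es (Jk S (cK N) 2) 1) (hg' : g ∈ Gam _ (2 * N))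
    (Y0 : ℕ → SL (Fin 2) ℤ[X])
    (hY0 : ∀ m, 2 ≤ m → m ≤ 2 * N → Cg (X ^ (2 * N)) (Y0 m) ∧ ClsK m (Y0 m)) :
    ∀ a, 1 ≤ a → a ≤ 2 * N → ∃ j : ℕ → ℕ, (∀ m, j m ≤ m) ∧ (∀ m, m < 2 → j m = 0) ∧
      g * (((List.range (a + 1)).map fun m => (emb (prK S N) (Y0 m)) ^ j m).prod)⁻¹ ∈
        Es (Jk S (cK N) (2 + 9 * (a - 1))) a := by
  intro a ha
  induction a, ha using Nat.le_induction with
  | base =>
    intro _
    refine ⟨fun _ => 0, fun m => Nat.zero_le m, fun _ _ => rfl, ?_⟩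
    simpa using hg
  | succ a ha ih =>
    intro haN
    obtain ⟨j, hj1, hj2, hj3⟩ := ih (by omega)
    set e : Fin 2 ↪ S ⊕ Fin (cK N) := prK S N with he
    set P := ((List.range (a + 1)).map fun m => (emb e (Y0 m)) ^ j m).prod with hP
    have e01 : e 0 ≠ e 1 := fun h => by have := e.injective h; exact absurd this (by decide)
    set k := 2 + 9 * (a - 1) with hk
    have hkc : k + 8 + 1 ≤ cK N := by unfold cK; omega
    have hk' : 2 + 9 * (a + 1 - 1) = k + 8 + 1 := by omega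
    rw [hk']
    have hmem : ∀ k', 2 ≤ k' → ∀ i, e i ∈ Jk S (cK N) k' := fun k' h i => prK_mem N k' h i
    have hgamY : ∀ m, 2 ≤ m → m ≤ 2 * N → emb e (Y0 m) ∈ Gam (S ⊕ Fin (cK N)) (2 * N) := by
      intro m h1 h2
      exact emb_mem_Gam (hY0 m h1 h2).1
    have hppY : ∀ m, 2 ≤ m → m ≤ 2 * N → emb e (Y0 m) ∈ PPs ({e 0, e 1} : Set (S ⊕ Fin (cK N))) := by
      intro m h1 h2
      obtain ⟨s, s', hs, hs', p, hp, hE⟩ := (hY0 m h1 h2).2
      have hJ : ∀ k, e k ∈ ({e 0, e 1} : Set (S ⊕ Fin (cK N))) := by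
        intro k
        fin_cases k
        · exact Or.inl rfl
        · exact Or.inr rfl
      refine emb_mem_PPs e ?_ hJ
      have hx : ∀ (i j : Fin 2) (h : i ≠ j) (f : ℤ[X]), Pool.WFS.Nil.xs i j h f ∈
          Pool.WFS.Nil.Ez (Fin 2) ℤ[X] := fun i j h f => Pool.WFS.Nil.xs_mem_Ez i j h f
      have hCc : Cc2 s s' (m - 1) ∈ Pool.WFS.Nil.Ez (Fin 2) ℤ[X] :=
        Subgroup.mul_mem _ (Subgroup.mul_mem _ (Subgroup.mul_mem _ (hx _ _ _ _) (hx _ _ _ _))
          (Subgroup.inv_mem _ (hx _ _ _ _))) (Subgroup.inv_mem _ (hx _ _ _ _))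
      have h3 := Subgroup.mul_mem _ (Subgroup.mul_mem _ (Subgroup.mul_mem _ hp hCc)
        (Subgroup.inv_mem _ hp)) (Pool.WFS.Nil.E1_le_Ez m hE)
      rwa [mul_inv_cancel_left] at h3
    have hPgam : P ∈ Gam (S ⊕ Fin (cK N)) (2 * N) := by
      apply prod_mem_Gam
      intro m hm h0
      apply hgamY m _ (by omega)
      by_contra hlt
      exact h0 (hj2 m (by omega))
    have hPpp : P ∈ PPs ({e 0, e 1} : Set (S ⊕ Fin (cK N))) := by
      apply prod_mem_PPs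
      intro m hm h0
      apply hppY m _ (by omega)
      by_contra hlt
      exact h0 (hj2 m (by omega))
    set J' := Jk S (cK N) (k + 8 + 1) with hJ'
    have h5 : Five J' (e 0) (e 1) := Five_Jk (by omega) hkc _ _
    have h0 : e 0 ∈ J' := hmem _ (by omega) 0
    have h1 : e 1 ∈ J' := hmem _ (by omega) 1
    have hgP : g * P⁻¹ ∈ Gam (S ⊕ Fin (cK N)) (a + 1) :=
      Gam_anti (by omega) ((Gam _ _).mul_mem hg' ((Gam _ _).inv_mem hPgam))
    have hH : g * P⁻¹ ∈ HJ J' a :=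
      hKa _ a ha _ _ (spare_gen (S := S) (c := cK N) (k := k) (d := 8) hkc le_rfl) _ hj3 hgP
    obtain ⟨l, hl, hl0, hl1, _, _⟩ := h5.2 (e 0) (e 1) h0 h1
    have hT := hTo _ J' (e 0) (e 1) l e01 hl0.symm hl1.symm h0 h1 hl a ha
    obtain ⟨hYP, hYc⟩ := emb_Y e h5 h0 h1 e01 (hY0 (a + 1) (by omega) haN).2
    obtain ⟨n, hn, hn'⟩ := step h5 e01 h0 h1 hT hH hYP hYc
    refine ⟨Function.update j (a + 1) n, ?_, ?_, ?_⟩
    · intro m
      by_cases hm : m = a + 1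
      · subst hm; rw [Function.update_self]; omega
      · rw [Function.update_of_ne hm]; exact hj1 m
    · intro m hm
      rw [Function.update_of_ne (by omega)]
      exact hj2 m hm
    · rw [List.range_succ, List.map_append, List.prod_append, List.map_singleton,
        List.prod_singleton, Function.update_self,
        prod_congr _ (Function.update j (a + 1) n) j (a + 1)
          (fun m hm => Function.update_of_ne (by omega) _ _), ← hP]
      have hSp : Sp ({e 0, e 1} : Set (S ⊕ Fin (cK N))) J' := h5.1 _ _ h0 h1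
      have hYn : emb e (Y0 (a + 1)) ^ n ∈ PPs ({e 0, e 1} : Set (S ⊕ Fin (cK N))) :=
        (PPs _).pow_mem (hppY _ (by omega) haN) n
      have hYg : emb e (Y0 (a + 1)) ^ n ∈ Gam (S ⊕ Fin (cK N)) (a + 1) :=
        Gam_anti (by omega) ((Gam _ _).pow_mem (hgamY _ (by omega) haN) n)
      have hc := centralS hSp hYn hYg (PPs_mono hSp.1 hPpp)
      have h3 := (Es J' (a + 1)).mul_mem hn' hc
      convert h3 using 1
      group

end desc

end Pool.WFS.K
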