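import Pool.Agent.WFK.Main2

/-! # The output of module K, from `(K_a)`, torsion and Tits (helper73) -/

set_option autoImplicit false
set_option linter.all false
set_option maxHeartbeats 400000

noncomputable section

namespace Pool.WFS.K

open Polynomial Matrix
open Pool.WFS.Lad (Cg SL)
open Pool.Agent.WFS (cK prK Cc2 ClsK LetN)
open scoped Classical

section
variable {S T : Type} [Fintype S] [DecidableEq S] [Fintype T] [DecidableEq T]

theorem Lt_emb (f : S ↪ T) {N : ℕ} {g : SL S ℤ[X]} (hg : g ∈ Pool.Agent.WFS.Lt S N) :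
    Pool.Agent.WFS.emb f g ∈ Pool.Agent.WFS.Lt T N := by
  obtain ⟨i, j, d, hij, hd, s, hs, hg⟩ := hg
  refine ⟨f i, f j, d, fun h => hij (f.injective h), hd, s, hs, ?_⟩
  rcases hg with hg | hg
  · left
    exact Pool.Agent.WFS.emb_single f hg
  · right
    rw [Pool.Agent.WFS.emb_tv f hg]
    congr 2
    · funext b
      by_cases hb : ∃ k, f k = b
      · obtain ⟨k, rfl⟩ := hb
        rw [Pool.Agent.WFS.pM_range]
        simp only [f.injective.eq_iff]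
      · push Not at hb
        rw [Pool.Agent.WFS.pM_not f _ hb, if_neg]
        rintro (h | h)
        · exact hb i h.symm
        · exact hb j h.symm
    · funext b
      by_cases hb : ∃ k, f k = b
      · obtain ⟨k, rfl⟩ := hb
        rw [Pool.Agent.WFS.pM_range]
        simp only [f.injective.eq_iff]
      · push Not at hb
        rw [Pool.Agent.WFS.pM_not f _ hb, if_neg (fun h => hb i h.symm),
          if_neg (fun h => hb j h.symm), sub_zero]

theorem closure_Lt_emb (f : S ↪ T) {N : ℕ} {g : SL S ℤ[X]} (hg : g ∈ Subgroup.closure (Pool.Agent.WFS.Lt S N)) :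
    Pool.Agent.WFS.emb f g ∈ Subgroup.closure (Pool.Agent.WFS.Lt T N) := by
  induction hg using Subgroup.closure_induction with
  | mem x hx => exact Subgroup.subset_closure (Lt_emb f hx)
  | one => rw [map_one]; exact Subgroup.one_mem _
  | mul x y _ _ hx hy => rw [map_mul]; exact Subgroup.mul_mem _ hx hy
  | inv x _ hx => rw [map_inv]; exact Subgroup.inv_mem _ hx

/-- (U): correction by letters -/
theorem corr {N : ℕ} (hN : 1 ≤ N) {M : SL S ℤ[X]} (hM : Cg (X ^ N) M) (k : ℕ) :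
    ∃ L, L ∈ Subgroup.closure (Pool.Agent.WFS.Lt S N) ∧ L ∈ Pool.WFS.Nil.E1 S 1 ∧ Cg (X ^ (N + k)) (L⁻¹ * M) := by
  induction k with
  | zero => exact ⟨1, Subgroup.one_mem _, Subgroup.one_mem _, by simpa using hM⟩
  | succ k ih =>
    obtain ⟨L, h1, h2, h3⟩ := ih
    obtain ⟨L', k1, k2, k3, k4, k5⟩ := Pool.Agent.WFS.u_step (by omega : 1 ≤ N + k) h3
    refine ⟨L * L', Subgroup.mul_mem _ h1
      (Subgroup.closure_mono (Pool.Agent.WFS.Lt_anti (by omega)) k1),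
      Subgroup.mul_mem _ h2 (Pool.WFS.Nil.E1_anti (by omega) k2), ?_⟩
    rw [_root_.mul_inv_rev, mul_assoc]
    exact k4

theorem emb_refl_mem_Ez {g : G S} (hg : g ∈ PPs (Set.univ : Set S)) :
    ∃ M ∈ Pool.WFS.Nil.Ez S R, emb (Function.Embedding.refl S) M = g := by
  induction hg using Subgroup.closure_induction with
  | mem x hx =>
    obtain ⟨i, j, r, hij, _, _, rfl⟩ := hx
    exact ⟨_, Pool.WFS.Nil.xs_mem_Ez i j hij r, emb_xs (Function.Embedding.refl S) i j hij _⟩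
  | one => exact ⟨1, Subgroup.one_mem _, emb_one _⟩
  | mul x y _ _ hx hy =>
    obtain ⟨M, hM, rfl⟩ := hx
    obtain ⟨M', hM', rfl⟩ := hy
    exact ⟨M * M', Subgroup.mul_mem _ hM hM', emb_mul _ _ _⟩
  | inv x _ hx =>
    obtain ⟨M, hM, rfl⟩ := hx
    exact ⟨M⁻¹, Subgroup.inv_mem _ hM, emb_inv _ _⟩

theorem emb_refl_mem_E1 {a : ℕ} {g : G S} (hg : g ∈ Es (Set.univ : Set S) a) :
    ∃ M ∈ Pool.WFS.Nil.E1 S a, emb (Function.Embedding.refl S) M = g := by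
  induction hg using Subgroup.closure_induction with
  | mem x hx =>
    obtain ⟨p, hp, i, j, r, hij, _, _, rfl⟩ := hx
    obtain ⟨P, hP, rfl⟩ := emb_refl_mem_Ez hp
    refine ⟨P * Pool.WFS.Nil.xs i j hij (X ^ a * r) * P⁻¹,
      Pool.WFS.Nil.E1_conj hP (Pool.WFS.Nil.xs_mem_E1 i j hij r), ?_⟩
    rw [emb_mul, emb_mul, emb_inv, emb_xs]
    rfl
  | one => exact ⟨1, Subgroup.one_mem _, emb_one _⟩
  | mul x y _ _ hx hy =>
    obtain ⟨M, hM, rfl⟩ := hx
    obtain ⟨M', hM', rfl⟩ := hy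
    exact ⟨M * M', Subgroup.mul_mem _ hM hM', emb_mul _ _ _⟩
  | inv x _ hx =>
    obtain ⟨M, hM, rfl⟩ := hx
    exact ⟨M⁻¹, Subgroup.inv_mem _ hM, emb_inv _ _⟩

theorem mem_E1_of_emb {a : ℕ} {M : Matrix.SpecialLinearGroup S R}
    (h : emb (Function.Embedding.refl S) M ∈ Es (Set.univ : Set S) a) :
    M ∈ Pool.WFS.Nil.E1 S a := by
  obtain ⟨M', hM', h'⟩ := emb_refl_mem_E1 h
  rwa [← emb_injective _ h']

theorem Ez_of_cls {m : ℕ} {Y : SL (Fin 2) ℤ[X]} (h : ClsK m Y) :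
    Y ∈ Pool.WFS.Nil.Ez (Fin 2) ℤ[X] := by
  obtain ⟨s, s', hs, hs', p, hp, hE⟩ := h
  have hx : ∀ (i j : Fin 2) (h : i ≠ j) (f : ℤ[X]), Pool.WFS.Nil.xs i j h f ∈
      Pool.WFS.Nil.Ez (Fin 2) ℤ[X] := fun i j h f => Pool.WFS.Nil.xs_mem_Ez i j h f
  have hCc : Cc2 s s' (m - 1) ∈ Pool.WFS.Nil.Ez (Fin 2) ℤ[X] :=
    Subgroup.mul_mem _ (Subgroup.mul_mem _ (Subgroup.mul_mem _ (hx _ _ _ _) (hx _ _ _ _))
      (Subgroup.inv_mem _ (hx _ _ _ _))) (Subgroup.inv_mem _ (hx _ _ _ _))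
  have h3 := Subgroup.mul_mem _ (Subgroup.mul_mem _ (Subgroup.mul_mem _ hp hCc)
    (Subgroup.inv_mem _ hp)) (Pool.WFS.Nil.E1_le_Ez m hE)
  rwa [mul_inv_cancel_left] at h3

/-- coherence -/
theorem coh {ι : Type} (e : Fin 2 ↪ ι) {b : ℕ} (n : ℕ) (j : ℕ → ℕ) (Y0 Y : ℕ → SL (Fin 2) ℤ[X])
    (h0 : ∀ m, m < n → j m ≠ 0 → Y0 m ∈ Pool.WFS.Nil.Ez (Fin 2) ℤ[X])
    (h1 : ∀ m, m < n → j m ≠ 0 → (Y0 m)⁻¹ * Y m ∈ Pool.WFS.Nil.E1 (Fin 2) b) :
    ∃ (hP : ((List.range n).map fun m => (emb e (Y m)) ^ j m).prod ∈ PPs (Set.univ : Set ι))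
      (hP0 : ((List.range n).map fun m => (emb e (Y0 m)) ^ j m).prod ∈ PPs (Set.univ : Set ι)),
      cl Set.univ b hP = cl Set.univ b hP0 := by
  induction n with
  | zero =>
    simp only [List.range_zero, List.map_nil, List.prod_nil]
    exact ⟨(PPs _).one_mem, (PPs _).one_mem, trivial⟩
  | succ n ih =>
    obtain ⟨hP, hP0, hc⟩ := ih (fun m hm => h0 m (by omega)) (fun m hm => h1 m (by omega))
    have hfac : ∃ (hQ : (emb e (Y n)) ^ j n ∈ PPs (Set.univ : Set ι))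
      (hQ0 : (emb e (Y0 n)) ^ j n ∈ PPs (Set.univ : Set ι)),
      cl Set.univ b hQ = cl Set.univ b hQ0 := by
      by_cases hj : j n = 0
      · simp only [hj, pow_zero]
        exact ⟨(PPs _).one_mem, (PPs _).one_mem, trivial⟩
      · have hY0 : emb e (Y0 n) ∈ PPs (Set.univ : Set ι) :=
          emb_mem_PPs e (h0 n (by omega) hj) (fun _ => Set.mem_univ _)
        have hE : emb e ((Y0 n)⁻¹ * Y n) ∈ Es (Set.univ : Set ι) b :=
          emb_mem_Es e (h1 n (by omega) hj) (fun _ => Set.mem_univ _)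
        have e1 : emb e (Y n) = emb e (Y0 n) * emb e ((Y0 n)⁻¹ * Y n) := by
          rw [← emb_mul, mul_inv_cancel_left]
        have hEP := Es_le_PPs _ _ hE
        have hY : emb e (Y n) ∈ PPs (Set.univ : Set ι) := by
          rw [e1]; exact (PPs _).mul_mem hY0 hEP
        refine ⟨(PPs _).pow_mem hY _, (PPs _).pow_mem hY0 _, ?_⟩
        have e2 : cl Set.univ b hY = cl Set.univ b hY0 := by
          rw [cl_congr hY ((PPs _).mul_mem hY0 hEP) e1, cl_mul hY0 hEP, (cl_eq_one hEP).2 hE,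
            mul_one]
        rw [cl_pow hY, cl_pow hY0, e2]
    obtain ⟨hQ, hQ0, hcQ⟩ := hfac
    have a1 : ∀ Z : ℕ → SL (Fin 2) ℤ[X], ((List.range (n + 1)).map fun m => (emb e (Z m)) ^ j m).prod =
        ((List.range n).map fun m => (emb e (Z m)) ^ j m).prod * (emb e (Z n)) ^ j n := by
      intro Z
      rw [List.range_succ, List.map_append, List.prod_append, List.map_singleton,
        List.prod_singleton]
    rw [a1 Y, a1 Y0]
    refine ⟨(PPs _).mul_mem hP hQ, (PPs _).mul_mem hP0 hQ0, ?_⟩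
    rw [cl_mul hP hQ, cl_mul hP0 hQ0, hc, hcQ]

end

/-- the output of module K from the three inputs -/
theorem K_out_of (hKa : KaStmt) (hTo : TorsStmt) (hTi : TitsStmt) (N : ℕ) (hN : 1 ≤ N) (S : Type)
    [Fintype S] [DecidableEq S] (M : SL S ℤ[X])
    (hM : M ∈ Pool.WFS.Nil.E1 S 1) (hc : Cg (X ^ N) M) (Y0 : ℕ → SL (Fin 2) ℤ[X])
    (hY0 : ∀ m, 2 ≤ m → m ≤ 2 * N → Cg (X ^ (2 * N)) (Y0 m) ∧ ClsK m (Y0 m)) :
    ∃ j : ℕ → ℕ, (∀ m, j m ≤ m) ∧ (∀ m, m < 2 → j m = 0) ∧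
      ∀ Y : ℕ → SL (Fin 2) ℤ[X],
        (∀ m, 2 ≤ m → m ≤ 2 * N → (Y0 m)⁻¹ * Y m ∈ Pool.WFS.Nil.E1 (Fin 2) (2 * N)) →
        Pool.Agent.WFS.emb (Function.Embedding.inl : S ↪ S ⊕ Fin (cK N)) M *
          (((List.range (2 * N + 1)).map fun m =>
            (Pool.Agent.WFS.emb (prK S N) (Y m)) ^ j m).prod)⁻¹ ∈
          Subgroup.closure (Pool.Agent.WFS.Lt (S ⊕ Fin (cK N)) N) := by
  obtain ⟨L, hL1, hL2, hL3⟩ := corr hN hc N
  set M1 := L⁻¹ * M with hM1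
  have hM1E : M1 ∈ Pool.WFS.Nil.E1 S 1 := Subgroup.mul_mem _ (Subgroup.inv_mem _ hL2) hM
  have hL3' : Cg (X ^ (2 * N)) M1 := by rw [two_mul]; exact hL3
  set ei : S ↪ S ⊕ Fin (cK N) := Function.Embedding.inl with hei
  have hg : emb ei M1 ∈ Es (Jk S (cK N) 2) 1 := emb_mem_Es ei hM1E (fun s => inl_mem_Jk s)
  have hg' : emb ei M1 ∈ Gam (S ⊕ Fin (cK N)) (2 * N) := emb_mem_Gam hL3'
  obtain ⟨j, hj1, hj2, hj3⟩ := descent hKa hTo hN hg hg' Y0 hY0 (2 * N) (by omega) le_rfl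
  refine ⟨j, hj1, hj2, fun Y hY => ?_⟩
  obtain ⟨hP, hP0, hcoh⟩ := coh (prK S N) (b := 2 * N) (2 * N + 1) j Y0 Y
    (fun m hm h0 => Ez_of_cls (hY0 m (by by_contra h; exact h0 (hj2 m (by omega))) (by omega)).2)
    (fun m hm h0 => hY m (by by_contra h; exact h0 (hj2 m (by omega))) (by omega))
  have hgU : emb ei M1 ∈ PPs (Set.univ : Set (S ⊕ Fin (cK N))) :=
    PPs_mono (Set.subset_univ _) (Es_le_PPs _ _ hg)
  have h4 : emb ei M1 * (((List.range (2 * N + 1)).map fun m =>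
      (emb (prK S N) (Y m)) ^ j m).prod)⁻¹ ∈ Es (Set.univ : Set (S ⊕ Fin (cK N))) (2 * N) := by
    rw [← cl_eq hgU hP, hcoh, cl_eq hgU hP0]
    exact Es_mono (Set.subset_univ _) _ hj3
  set M2 : SL (S ⊕ Fin (cK N)) ℤ[X] := Pool.Agent.WFS.emb ei M1 *
          (((List.range (2 * N + 1)).map fun m =>
            (Pool.Agent.WFS.emb (prK S N) (Y m)) ^ j m).prod)⁻¹ with hM2
  have h5 : emb (Function.Embedding.refl _) M2 = emb ei M1 * (((List.range (2 * N + 1)).map fun m =>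
      (emb (prK S N) (Y m)) ^ j m).prod)⁻¹ := by
    rw [hM2, emb_mul, emb_inv, emb_emb]
    congr 2
    rw [← embH_apply, map_list_prod, List.map_map]
    congr 1
    apply List.map_congr_left
    intro m _
    simp only [Function.comp_apply, map_pow, embH_apply]
    rw [emb_emb]
    rfl
  have h6 : M2 ∈ Pool.WFS.Nil.E1 (S ⊕ Fin (cK N)) (2 * N) := by
    apply mem_E1_of_emb
    rw [h5]; exact h4
  have hcard : 3 ≤ Fintype.card (S ⊕ Fin (cK N)) := by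
    rw [Fintype.card_sum, Fintype.card_fin]
    unfold cK; omega
  have h7 := hTi _ hcard N hN h6
  have h8 : M2 ∈ Subgroup.closure (Pool.Agent.WFS.Lt (S ⊕ Fin (cK N)) N) :=
    Subgroup.closure_mono (Pool.Agent.WFS.LetN_sub_Lt _ _) h7
  have h9 : Pool.Agent.WFS.emb ei M = Pool.Agent.WFS.emb ei L * Pool.Agent.WFS.emb ei M1 := by
    rw [← map_mul, hM1, mul_inv_cancel_left]
  rw [h9, mul_assoc, ← hM2]
  exact Subgroup.mul_mem _ (closure_Lt_emb ei hL1) h8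

end Pool.WFS.K
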