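import Pool.Agent.WFK.Cen

/-! # The quotient `PPs J / Es J b`, index independence (helper73) -/

set_option autoImplicit false
set_option linter.all false
set_option maxHeartbeats 400000

noncomputable section

namespace Pool.WFS.K

open Polynomial
open scoped Classical

variable {ι : Type}

theorem idx_abs {Q : Type} [Group Q] {y ξ c e m : Q} (hξ : ξ = c * e * c⁻¹ * e⁻¹)
    (h1 : y * c * y⁻¹ * c⁻¹ = m) (h2 : Commute y e) (h3 : Commute m ξ)
    (hcen : ∀ q, Commute (m * e * m⁻¹ * e⁻¹) q) :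
    y * ξ * y⁻¹ * ξ⁻¹ = m * e * m⁻¹ * e⁻¹ := by
  have e1 : y * c * y⁻¹ = m * c := by rw [← h1]; group
  have e2 : y * e * y⁻¹ = e := by rw [h2.eq]; group
  have e3 : y * ξ * y⁻¹ = m * ξ * e * m⁻¹ * e⁻¹ := by
    calc y * ξ * y⁻¹ = (y * c * y⁻¹) * (y * e * y⁻¹) * (y * c * y⁻¹)⁻¹ * (y * e * y⁻¹)⁻¹ := by
          rw [hξ]; group
      _ = (m * c) * e * (m * c)⁻¹ * e⁻¹ := by rw [e1, e2]
      _ = m * ξ * e * m⁻¹ * e⁻¹ := by rw [hξ]; group
  rw [e3, h3.eq]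
  have e4 := (hcen ξ).eq
  calc ξ * m * e * m⁻¹ * e⁻¹ * ξ⁻¹ = ξ * (m * e * m⁻¹ * e⁻¹) * ξ⁻¹ := by group
    _ = (m * e * m⁻¹ * e⁻¹) * ξ * ξ⁻¹ := by rw [← e4]
    _ = _ := by group

theorem comm_inv_left {Q : Type} [Group Q] {x y : Q} (hcen : ∀ q, Commute (x * y * x⁻¹ * y⁻¹) q) :
    x⁻¹ * y * x * y⁻¹ = (x * y * x⁻¹ * y⁻¹)⁻¹ := by
  have h := (hcen x).eq
  have : x⁻¹ * y * x * y⁻¹ = x⁻¹ * (x * y * x⁻¹ * y⁻¹)⁻¹ * x := by group
  rw [this]
  have h2 : (x * y * x⁻¹ * y⁻¹)⁻¹ * x = x * (x * y * x⁻¹ * y⁻¹)⁻¹ := by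
    have := ((hcen x).inv_left).eq
    exact this
  rw [mul_assoc, h2]
  group

theorem comm_inv_right {Q : Type} [Group Q] {x y : Q}
    (hcen : ∀ q, Commute (x * y * x⁻¹ * y⁻¹) q) :
    x * y⁻¹ * x⁻¹ * y = (x * y * x⁻¹ * y⁻¹)⁻¹ := by
  have h2 : (x * y * x⁻¹ * y⁻¹)⁻¹ * y = y * (x * y * x⁻¹ * y⁻¹)⁻¹ := ((hcen y).inv_left).eq
  have : x * y⁻¹ * x⁻¹ * y = y⁻¹ * (x * y * x⁻¹ * y⁻¹)⁻¹ * y := by group
  rw [this, mul_assoc, h2]
  group

instance EsNormal (J : Set ι) (b : ℕ) : ((Es J b).subgroupOf (PPs J)).Normal where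
  conj_mem := by
    intro n hn g
    rw [Subgroup.mem_subgroupOf] at hn ⊢
    exact conj_mem_Es g.2 hn

/-- the quotient -/
abbrev QJ (J : Set ι) (b : ℕ) := ↥(PPs J) ⧸ (Es J b).subgroupOf (PPs J)

/-- the class of an element -/
def cl (J : Set ι) (b : ℕ) {g : G ι} (hg : g ∈ PPs J) : QJ J b := QuotientGroup.mk ⟨g, hg⟩

theorem cl_mul {J : Set ι} {b : ℕ} {g h : G ι} (hg : g ∈ PPs J) (hh : h ∈ PPs J) :
    cl J b ((PPs J).mul_mem hg hh) = cl J b hg * cl J b hh := rfl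

theorem cl_inv {J : Set ι} {b : ℕ} {g : G ι} (hg : g ∈ PPs J) :
    cl J b ((PPs J).inv_mem hg) = (cl J b hg)⁻¹ := rfl

theorem cl_one (J : Set ι) (b : ℕ) : cl J b (PPs J).one_mem = 1 := rfl

theorem cl_eq_one {J : Set ι} {b : ℕ} {g : G ι} (hg : g ∈ PPs J) :
    cl J b hg = 1 ↔ g ∈ Es J b := by
  unfold cl
  rw [QuotientGroup.eq_one_iff, Subgroup.mem_subgroupOf]

theorem cl_eq {J : Set ι} {b : ℕ} {g h : G ι} (hg : g ∈ PPs J) (hh : h ∈ PPs J) :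
    cl J b hg = cl J b hh ↔ g * h⁻¹ ∈ Es J b := by
  rw [← mul_inv_eq_one, ← cl_inv, ← cl_mul, cl_eq_one]

theorem cl_surj {J : Set ι} {b : ℕ} (q : QJ J b) : ∃ (g : G ι) (hg : g ∈ PPs J), cl J b hg = q := by
  obtain ⟨⟨g, hg⟩, rfl⟩ := QuotientGroup.mk_surjective q
  exact ⟨g, hg, rfl⟩

theorem cl_congr {J : Set ι} {b : ℕ} {g h : G ι} (hg : g ∈ PPs J) (hh : h ∈ PPs J) (e : g = h) :
    cl J b hg = cl J b hh := by subst e; rfl

theorem cl_comm {J : Set ι} {b : ℕ} {x y z : G ι} (hx : x ∈ PPs J) (hy : y ∈ PPs J)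
    (hz : z ∈ PPs J) (h : x * y * x⁻¹ * y⁻¹ = z) :
    cl J b hx * cl J b hy * (cl J b hx)⁻¹ * (cl J b hy)⁻¹ = cl J b hz := by
  subst h; rfl

theorem comm_mem_PPs {J : Set ι} {x y : G ι} (hx : x ∈ PPs J) (hy : y ∈ PPs J) :
    x * y * x⁻¹ * y⁻¹ ∈ PPs J :=
  (PPs J).mul_mem ((PPs J).mul_mem ((PPs J).mul_mem hx hy) ((PPs J).inv_mem hx))
    ((PPs J).inv_mem hy)

theorem cl_commute {J : Set ι} {b : ℕ} {x y : G ι} (hx : x ∈ PPs J) (hy : y ∈ PPs J)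
    (h : x * y * x⁻¹ * y⁻¹ ∈ Es J b) : Commute (cl J b hx) (cl J b hy) := by
  have h1 := (cl_eq_one (comm_mem_PPs hx hy)).2 h
  rw [← cl_comm hx hy (comm_mem_PPs hx hy) rfl, mul_inv_eq_one, mul_inv_eq_iff_eq_mul] at h1
  exact h1

/-- an element of `Gam b` with support in a smaller set is central in the quotient -/
theorem cl_central {J J' : Set ι} (hJ : Sp J J') {b : ℕ} {z : G ι} (hz : z ∈ PPs J)
    (hz' : z ∈ Gam ι b) (q : QJ J' b) : Commute (cl J' b (PPs_mono hJ.1 hz)) q := by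
  obtain ⟨p, hp, rfl⟩ := cl_surj q
  exact cl_commute _ _ (centralS hJ hz hz' hp)

theorem xe_add73 {i j : ι} (hij : i ≠ j) (r s : R) : xe i j (r + s) = xe i j r * xe i j s := by
  unfold xe
  rw [Finsupp.single_add, tau_add_right (co_single hij r) (co_single hij s)]

theorem xe_zero73 {i j : ι} : xe i j (0 : R) = 1 := by
  unfold xe
  rw [Finsupp.single_zero, tau_zero_right]

theorem xe_neg73 {i j : ι} (r : R) : xe i j (-r) = (xe i j r)⁻¹ := by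
  unfold xe
  rw [tau_inv, Finsupp.single_neg]

theorem comm_mem_Gam73 {a b : ℕ} {y g : G ι} (hy : y ∈ Gam ι b) (hg : g ∈ Gam ι a) :
    y * g * y⁻¹ * g⁻¹ ∈ Gam ι (b + a) := by
  intro v i
  set w := y⁻¹ (g⁻¹ v) with hw
  have hv : v = g (y w) := by rw [hw, apply_inv_self, apply_inv_self]
  have e1 : (y * g * y⁻¹ * g⁻¹) v - v = y (g w) - g (y w) := by
    conv_lhs => rw [hv]
    rw [LinearEquiv.mul_apply, LinearEquiv.mul_apply, LinearEquiv.mul_apply]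
    rw [inv_apply_self, inv_apply_self]
  have e2 : y (g w) - g (y w) = (y (g w - w) - (g w - w)) - (g (y w - w) - (y w - w)) := by
    rw [map_sub, map_sub]; abel
  rw [e1, e2, Finsupp.sub_apply]
  obtain ⟨u1, hu1⟩ := exists_smul (fun i => hg w i)
  obtain ⟨u2, hu2⟩ := exists_smul (fun i => hy w i)
  apply dvd_sub
  · rw [hu1, map_smul, ← smul_sub, Finsupp.smul_apply, smul_eq_mul, pow_add, mul_comm]
    exact mul_dvd_mul_left _ (hy u1 i) |>.trans (by rw [])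
  · rw [hu2, map_smul, ← smul_sub, Finsupp.smul_apply, smul_eq_mul, pow_add]
    exact mul_dvd_mul_left _ (hg u2 i)

/-- the disjoint commutation relation in the quotient -/
theorem xe_commute_dvd {J : Set ι} {b : ℕ} {i j k : ι} (hij : i ≠ j) (hjk : j ≠ k) (hik : i ≠ k)
    (hi : i ∈ J) (hj : j ∈ J) (hk : k ∈ J) {r s : R} (h : X ^ b ∣ r * s) :
    Commute (cl J b (xe_mem_PPs hij hi hj r)) (cl J b (xe_mem_PPs hjk hj hk s)) := by
  have e1 := xe_comm hik hij hjk r s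
  have h1 : xe i k (r * s) ∈ Es J b := xe_mem_Es hik hi hk h
  rw [e1] at h1
  exact cl_commute _ _ h1

/-- the class of the commutator -/
def cC (J : Set ι) (b : ℕ) {i j : ι} (hij : i ≠ j) (hi : i ∈ J) (hj : j ∈ J) (a : ℕ) : QJ J b :=
  cl J b (Cab_mem_PPs hij hi hj 1 a)

theorem cC_eq {J : Set ι} {b : ℕ} {i j : ι} (hij : i ≠ j) (hi : i ∈ J) (hj : j ∈ J) (a : ℕ) :
    cC J b hij hi hj a = cl J b (xe_mem_PPs hij hi hj (X ^ 1)) * cl J b (xe_mem_PPs hij.symm hj hi (X ^ a))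
      * (cl J b (xe_mem_PPs hij hi hj (X ^ 1)))⁻¹ *
      (cl J b (xe_mem_PPs hij.symm hj hi (X ^ a)))⁻¹ := rfl

theorem Cab_mem_Gam73 {i j : ι} (hij : i ≠ j) (a b : ℕ) : Cab i j a b ∈ Gam ι (a + b) :=
  comm_mem_Gam73 (xe_mem_Gam hij dvd_rfl) (xe_mem_Gam hij.symm dvd_rfl)

/-- three spare indices beyond every pair -/
def Big (J : Set ι) : Prop := ∀ i j : ι, i ∈ J → j ∈ J → Sp ({i, j} : Set ι) J

theorem cC_central {J : Set ι} (hB : Big J) {i j : ι} (hij : i ≠ j) (hi : i ∈ J)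
    (hj : j ∈ J) (a : ℕ) (q : QJ J (a + 1)) : Commute (cC J (a + 1) hij hi hj a) q := by
  have h := cl_central (hB i j hi hj) (b := a + 1) (z := Cab i j 1 a)
    (Cab_mem_PPs hij (by simp) (by simp) 1 a)
    (by have := Cab_mem_Gam73 hij 1 a; rwa [add_comm] at this) q
  exact h

/-- index independence, right index -/
theorem cC_right {J : Set ι} (hB : Big J) {i j p : ι} (hij : i ≠ j) (hip : i ≠ p) (hjp : j ≠ p)
    (hi : i ∈ J) (hj : j ∈ J) (hp : p ∈ J) (a : ℕ) :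
    cC J (a + 1) hij hi hj a = cC J (a + 1) hip hi hp a := by
  rw [cC_eq, cC_eq]
  have hcen := cC_central hB hip hi hp a
  rw [cC_eq] at hcen
  refine idx_abs (c := cl J (a + 1) (xe_mem_PPs hjp hj hp 1)) ?_ ?_ ?_ ?_ hcen
  · refine (cl_comm _ _ (xe_mem_PPs hij.symm hj hi (X ^ a)) ?_).symm
    have := xe_comm hij.symm hjp hip.symm 1 (X ^ a)
    rw [one_mul] at this
    exact this.symm
  · refine cl_comm _ _ _ ?_
    have := xe_comm hip hij hjp (X ^ 1) 1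
    rw [mul_one] at this
    exact this.symm
  · exact (xe_commute_dvd hip.symm hij hjp.symm hp hi hj
      (by rw [← pow_add])).symm
  · exact (xe_commute_dvd hij.symm hip hjp hj hi hp (by rw [← pow_add])).symm

/-- index independence, left index -/
theorem cC_left {J : Set ι} (hB : Big J) {i j p : ι} (hij : i ≠ j) (hip : i ≠ p) (hjp : j ≠ p)
    (hi : i ∈ J) (hj : j ∈ J) (hp : p ∈ J) (a : ℕ) :
    cC J (a + 1) hij hi hj a = cC J (a + 1) hjp.symm hp hj a := by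
  have hcen := cC_central hB hjp.symm hp hj a
  have e0 : ∀ {Q : Type} [Group Q] (x y : Q), x * y * x⁻¹ * y⁻¹ = (y * x * y⁻¹ * x⁻¹)⁻¹ := by
    intro Q _ x y; group
  rw [cC_eq, cC_eq, e0, e0 (cl J (a + 1) (xe_mem_PPs hjp.symm hp hj (X ^ 1))), inv_inj]
  rw [cC_eq, e0] at hcen
  refine idx_abs (c := cl J (a + 1) (xe_mem_PPs hip hi hp 1)) ?_ ?_ ?_ ?_
    (fun q => by have := (hcen q).inv_left; rwa [inv_inv] at this)
  · refine (cl_comm _ _ (xe_mem_PPs hij hi hj (X ^ 1)) ?_).symm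
    have := xe_comm hij hip hjp.symm 1 (X ^ 1)
    rw [one_mul] at this
    exact this.symm
  · refine cl_comm _ _ _ ?_
    have := xe_comm hjp hij.symm hip (X ^ a) 1
    rw [mul_one] at this
    exact this.symm
  · exact (xe_commute_dvd hjp.symm hij.symm hip.symm hp hj hi
      (by rw [← pow_add, add_comm])).symm
  · exact (xe_commute_dvd hij hjp hip hi hj hp (by rw [← pow_add, add_comm])).symm

/-- index independence -/
theorem cC_indep {J : Set ι} (hB : Big J) {i j k l : ι} (hij : i ≠ j) (hkl : k ≠ l)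
    (hi : i ∈ J) (hj : j ∈ J) (hk : k ∈ J) (hl : l ∈ J) (a : ℕ) :
    (∃ p ∈ J, p ≠ i ∧ p ≠ j ∧ p ≠ k ∧ p ≠ l) →
    cC J (a + 1) hij hi hj a = cC J (a + 1) hkl hk hl a := by
  rintro ⟨p, hp, hpi, hpj, hpk, hpl⟩
  rw [cC_right hB hij hpi.symm hpj.symm hi hj hp a, cC_right hB hkl hpk.symm hpl.symm hk hl hp a]
  by_cases hik : i = k
  · subst hik; rfl
  · exact cC_left hB hpi.symm hik hpk hi hp hk a

end Pool.WFS.K
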